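import Pool.Agent.H636.HD.Chk

set_option autoImplicit false

/-! MP_257582_lc: certificates for `n - ω` from 1 to 53 (generated). -/

namespace Pool.Agent.H636.HD.D0

open Pool.Agent.H636.HD

def c1 : List Cls := [
]

theorem o1 : cov 1 c1 = true := by decide +kernel

def c2 : List Cls := [
]

theorem o2 : cov 2 c2 = true := by decide +kernel

def c3 : List Cls := [
]

theorem o3 : cov 3 c3 = true := by decide +kernel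

def c4 : List Cls := [
  ⟨6, 2, [(0, 6, 0, 0, 0, 0)], [(0, 4)], 8, 0, 0⟩]

theorem o4 : cov 4 c4 = true := by decide +kernel

def c5 : List Cls := [
  ⟨6, 1, [(0, 6, 0, 0, 0, 0)], [(0, 28)], 8, 0, 0⟩]

theorem o5 : cov 5 c5 = true := by decide +kernel

def c6 : List Cls := [
  ⟨15, 4, [(0, 15, 0, 0, 0, 0), (0, 7, 1, 0, 0, 0)], [], 2560, 0, 0⟩]

theorem o6 : cov 6 c6 = true := by decide +kernel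

def c7 : List Cls := [
  ⟨10, 2, [(0, 10, 0, 0, 0, 0)], [(0, 72)], 16, 0, 0⟩]

theorem o7 : cov 7 c7 = true := by decide +kernel

def c8 : List Cls := [
  ⟨10, 2, [(0, 10, 0, 0, 0, 0)], [(0, 72)], 16, 0, 0⟩,
  ⟨12, 3, [(0, 4, 1, 0, 0, 0)], [(0, 16)], 32, 0, 0⟩,
  ⟨21, 4, [(0, 13, 1, 0, 0, 0)], [(0, 34)], 32836, 0, 0⟩]

theorem o8 : cov 8 c8 = true := by decide +kernel

def c9 : List Cls := [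
  ⟨10, 1, [(0, 10, 0, 0, 0, 0)], [(0, 508)], 8, 0, 0⟩,
  ⟨14, 3, [(0, 14, 0, 0, 0, 0)], [(0, 69)], 206, 0, 0⟩,
  ⟨15, 3, [(0, 7, 1, 0, 0, 0)], [(0, 128)], 256, 0, 0⟩,
  ⟨21, 4, [(0, 5, 2, 0, 0, 0)], [(0, 32)], 8768, 0, 0⟩]

theorem o9 : cov 9 c9 = true := by decide +kernel

def c10 : List Cls := [
  ⟨12, 2, [(0, 12, 0, 0, 0, 0)], [(0, 292)], 8, 0, 0⟩,
  ⟨14, 3, [(0, 14, 0, 0, 0, 0), (0, 6, 1, 0, 0, 0)], [(0, 5)], 78, 0, 0⟩,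
  ⟨21, 4, [(2, 0, 2, 0, 0, 0)], [(0, 2), (2, 1)], 548, 0, 274⟩]

theorem o10 : cov 10 c10 = true := by decide +kernel

def c11 : List Cls := [
  ⟨12, 1, [(0, 12, 0, 0, 0, 0)], [(0, 2044)], 8, 0, 0⟩,
  ⟨14, 2, [(0, 6, 1, 0, 0, 0)], [(0, 1224)], 16, 0, 0⟩,
  ⟨15, 3, [(0, 7, 1, 0, 0, 0)], [(0, 129)], 22, 0, 0⟩]

theorem o11 : cov 11 c11 = true := by decide +kernel

def c12 : List Cls := [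
  ⟨14, 2, [(0, 6, 1, 0, 0, 0)], [(0, 1224)], 16, 0, 0⟩,
  ⟨18, 3, [(0, 10, 1, 0, 0, 0)], [(0, 1032)], 176, 0, 0⟩,
  ⟨22, 4, [(0, 14, 1, 0, 0, 0)], [(0, 69)], 138, 0, 0⟩]

theorem o12 : cov 12 c12 = true := by decide +kernel

def c13 : List Cls := [
  ⟨14, 1, [(0, 14, 0, 0, 0, 0)], [(0, 8188)], 8, 0, 0⟩,
  ⟨15, 2, [(0, 15, 0, 0, 0, 0)], [(0, 2340)], 8, 0, 0⟩,
  ⟨18, 3, [(0, 10, 1, 0, 0, 0)], [(0, 1032)], 176, 0, 0⟩,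
  ⟨20, 3, [(2, 7, 1, 0, 0, 0)], [(0, 256), (2, 129)], 512, 0, 22⟩,
  ⟨22, 4, [(0, 14, 1, 0, 0, 0)], [(0, 69)], 138, 0, 0⟩,
  ⟨24, 4, [(0, 0, 3, 0, 0, 0)], [(0, 277)], 1898, 0, 0⟩,
  ⟨33, 5, [(0, 25, 1, 0, 0, 0), (0, 17, 2, 0, 0, 0), (0, 9, 3, 0, 0, 0)], [(0, 2)], 2654220, 0, 0⟩]

theorem o13 : cov 13 c13 = true := by decide +kernel

def c14 : List Cls := [
  ⟨15, 1, [(0, 15, 0, 0, 0, 0)], [(0, 16380)], 8, 0, 0⟩,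
  ⟨20, 3, [(0, 12, 1, 0, 0, 0)], [(0, 4130)], 236, 0, 0⟩,
  ⟨22, 4, [(0, 14, 1, 0, 0, 0)], [(0, 69)], 138, 0, 0⟩,
  ⟨24, 4, [(0, 0, 3, 0, 0, 0)], [(0, 277)], 1898, 0, 0⟩,
  ⟨33, 5, [(2, 28, 0, 0, 0, 0), (2, 20, 1, 0, 0, 0), (2, 12, 2, 0, 0, 0), (2, 4, 3, 0, 0, 0)], [],
  174080, 0, 87040⟩,
  ⟨35, 5, [(0, 27, 1, 0, 0, 0), (0, 19, 2, 0, 0, 0), (0, 11, 3, 0, 0, 0)], [(0, 8)], 10616880, 0, 0⟩]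

theorem o14 : cov 14 c14 = true := by decide +kernel

def c15 : List Cls := [
  ⟨18, 2, [(0, 2, 2, 0, 0, 0)], [(0, 18792)], 16, 0, 0⟩,
  ⟨20, 3, [(0, 4, 2, 0, 0, 0)], [(0, 4448)], 64, 0, 0⟩,
  ⟨26, 4, [(0, 2, 3, 0, 0, 0)], [(0, 1108)], 7592, 0, 0⟩]

theorem o15 : cov 15 c15 = true := by decide +kernel

def c16 : List Cls := [
  ⟨18, 2, [(0, 18, 0, 0, 0, 0)], [(0, 18724)], 8, 0, 0⟩,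
  ⟨20, 3, [(0, 20, 0, 0, 0, 0)], [(0, 4464)], 32, 0, 0⟩,
  ⟨24, 4, [(0, 24, 0, 0, 0, 0)], [(0, 256)], 512, 0, 0⟩,
  ⟨45, 5, [(0, 21, 3, 0, 0, 0)], [(0, 8864)], 2325794752, 0, 0⟩]

theorem o16 : cov 16 c16 = true := by decide +kernel

def c17 : List Cls := [
  ⟨18, 1, [(0, 18, 0, 0, 0, 0)], [(0, 131068)], 8, 0, 0⟩,
  ⟨20, 2, [(0, 12, 1, 0, 0, 0)], [(0, 78408)], 16, 0, 0⟩,
  ⟨21, 3, [(0, 13, 1, 0, 0, 0), (0, 5, 2, 0, 0, 0)], [(0, 645)], 78, 0, 0⟩,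
  ⟨24, 3, [(2, 19, 0, 0, 0, 0)], [(0, 4464), (2, 2232)], 32, 0, 16⟩,
  ⟨26, 4, [(0, 26, 0, 0, 0, 0)], [(0, 1024)], 2048, 0, 0⟩,
  ⟨28, 4, [(0, 12, 2, 0, 0, 0)], [(0, 4113)], 8226, 0, 0⟩,
  ⟨33, 5, [(0, 33, 0, 0, 0, 0)], [(0, 2)], 131084, 0, 0⟩]

theorem o17 : cov 17 c17 = true := by decide +kernel

def c18 : List Cls := [
  ⟨20, 2, [(0, 12, 1, 0, 0, 0)], [(0, 78408)], 16, 0, 0⟩,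
  ⟨21, 2, [(0, 5, 2, 0, 0, 0)], [(0, 150344)], 16, 0, 0⟩,
  ⟨22, 3, [(0, 22, 0, 0, 0, 0), (0, 14, 1, 0, 0, 0)], [(0, 1355)], 10, 0, 0⟩,
  ⟨28, 4, [(0, 28, 0, 0, 0, 0), (0, 12, 2, 0, 0, 0)], [(0, 17)], 34, 0, 0⟩,
  ⟨30, 4, [(0, 30, 0, 0, 0, 0), (0, 6, 3, 0, 0, 0)], [(0, 1345)], 23170, 0, 0⟩,
  ⟨35, 5, [(0, 35, 0, 0, 0, 0)], [(0, 8)], 524336, 0, 0⟩,
  ⟨45, 5, [(2, 40, 0, 0, 0, 0)], [(0, 512), (2, 256)], 33557504, 0, 16778752⟩,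
  ⟨51, 6, [(0, 51, 0, 0, 0, 0), (0, 19, 4, 0, 0, 0)], [], 34493956096, 0, 0⟩]

theorem o18 : cov 18 c18 = true := by decide +kernel

def c19 : List Cls := [
  ⟨20, 1, [(0, 20, 0, 0, 0, 0)], [(0, 524284)], 8, 0, 0⟩,
  ⟨21, 2, [(0, 21, 0, 0, 0, 0)], [(0, 149796)], 8, 0, 0⟩,
  ⟨24, 3, [(0, 8, 2, 0, 0, 0)], [(0, 71172)], 88, 0, 0⟩,
  ⟨28, 4, [(0, 28, 0, 0, 0, 0), (0, 12, 2, 0, 0, 0)], [(0, 17)], 34, 0, 0⟩,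
  ⟨33, 4, [(0, 9, 3, 0, 0, 0)], [(0, 141838)], 54300, 0, 0⟩]

theorem o19 : cov 19 c19 = true := by decide +kernel

def c20 : List Cls := [
  ⟨21, 1, [(0, 21, 0, 0, 0, 0)], [(0, 1048572)], 8, 0, 0⟩,
  ⟨22, 2, [(0, 22, 0, 0, 0, 0)], [(0, 299592)], 16, 0, 0⟩,
  ⟨24, 3, [(0, 24, 0, 0, 0, 0)], [(0, 71426)], 44, 0, 0⟩,
  ⟨28, 4, [(0, 28, 0, 0, 0, 0), (0, 20, 1, 0, 0, 0)], [(0, 320)], 640, 0, 0⟩,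
  ⟨38, 5, [(0, 38, 0, 0, 0, 0), (0, 30, 1, 0, 0, 0)], [(0, 5)], 327710, 0, 0⟩,
  ⟨51, 5, [(2, 22, 3, 0, 0, 0)], [(0, 35456), (2, 17729)], 9303179008, 0, 356556678⟩]

theorem o20 : cov 20 c20 = true := by decide +kernel

def c21 : List Cls := [
  ⟨22, 1, [(0, 22, 0, 0, 0, 0)], [(0, 2097148)], 8, 0, 0⟩,
  ⟨24, 2, [(0, 8, 2, 0, 0, 0)], [(0, 1202760)], 16, 0, 0⟩,
  ⟨26, 3, [(0, 26, 0, 0, 0, 0)], [(0, 285704)], 176, 0, 0⟩,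
  ⟨28, 3, [(0, 12, 2, 0, 0, 0)], [(0, 1138756)], 472, 0, 0⟩,
  ⟨30, 4, [(0, 30, 0, 0, 0, 0), (0, 22, 1, 0, 0, 0)], [(0, 1280)], 2560, 0, 0⟩,
  ⟨33, 4, [(1, 30, 0, 0, 0, 0), (1, 22, 1, 0, 0, 0)], [(0, 2560), (1, 1280)], 5120, 2560, 0⟩,
  ⟨36, 4, [(2, 23, 1, 0, 0, 0)], [(0, 70656), (2, 35329)], 141312, 0, 5122⟩,
  ⟨39, 5, [(0, 39, 0, 0, 0, 0), (0, 31, 1, 0, 0, 0)], [(0, 10)], 655420, 0, 0⟩,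
  ⟨55, 6, [(0, 55, 0, 0, 0, 0), (0, 47, 1, 0, 0, 0), (0, 23, 4, 0, 0, 0), (0, 15, 5, 0, 0, 0)], [],
  43117445120, 0, 0⟩]

theorem o21 : cov 21 c21 = true := by decide +kernel

def c22 : List Cls := [
  ⟨24, 2, [(0, 24, 0, 0, 0, 0)], [(0, 1198372)], 8, 0, 0⟩,
  ⟨26, 3, [(0, 2, 3, 0, 0, 0)], [(0, 265456)], 32, 0, 0⟩,
  ⟨34, 4, [(0, 26, 1, 0, 0, 0), (0, 10, 3, 0, 0, 0)], [(0, 1045)], 2090, 0, 0⟩,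
  ⟨36, 4, [(0, 28, 1, 0, 0, 0)], [(0, 1130530)], 32836, 0, 0⟩,
  ⟨38, 5, [(0, 38, 0, 0, 0, 0), (0, 30, 1, 0, 0, 0)], [(0, 5)], 327710, 0, 0⟩,
  ⟨42, 5, [(1, 39, 0, 0, 0, 0), (1, 31, 1, 0, 0, 0)], [(0, 20), (1, 10)], 1310840, 655420, 0⟩,
  ⟨45, 5, [(2, 40, 0, 0, 0, 0), (2, 32, 1, 0, 0, 0)], [(0, 40), (2, 20)], 2621680, 0, 1310840⟩,
  ⟨55, 6, [(0, 55, 0, 0, 0, 0), (0, 47, 1, 0, 0, 0), (0, 23, 4, 0, 0, 0), (0, 15, 5, 0, 0, 0)], [],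
  43117445120, 0, 0⟩,
  ⟨57, 6, [(2, 52, 0, 0, 0, 0), (2, 44, 1, 0, 0, 0), (2, 20, 4, 0, 0, 0), (2, 12, 5, 0, 0, 0)], [],
  10779361280, 0, 5389680640⟩]

theorem o22 : cov 22 c22 = true := by decide +kernel

def c23 : List Cls := [
  ⟨24, 1, [(0, 24, 0, 0, 0, 0)], [(0, 8388604)], 8, 0, 0⟩,
  ⟨26, 2, [(0, 18, 1, 0, 0, 0)], [(0, 5018184)], 16, 0, 0⟩,
  ⟨28, 3, [(0, 20, 1, 0, 0, 0)], [(0, 1057504)], 64, 0, 0⟩,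
  ⟨34, 4, [(0, 26, 1, 0, 0, 0), (0, 10, 3, 0, 0, 0)], [(0, 1045)], 2090, 0, 0⟩,
  ⟨35, 4, [(0, 27, 1, 0, 0, 0)], [(0, 565265)], 16418, 0, 0⟩,
  ⟨44, 5, [(0, 44, 0, 0, 0, 0), (0, 28, 2, 0, 0, 0)], [(0, 17)], 1114214, 0, 0⟩]

theorem o23 : cov 23 c23 = true := by decide +kernel

def c24 : List Cls := [
  ⟨26, 2, [(0, 18, 1, 0, 0, 0)], [(0, 5018184)], 16, 0, 0⟩,
  ⟨28, 3, [(0, 28, 0, 0, 0, 0), (0, 4, 3, 0, 0, 0)], [(0, 82914)], 108, 0, 0⟩,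
  ⟨30, 3, [(0, 22, 1, 0, 0, 0)], [(0, 4230016)], 256, 0, 0⟩,
  ⟨33, 4, [(0, 17, 2, 0, 0, 0)], [(0, 131620)], 1096, 0, 0⟩,
  ⟨44, 5, [(0, 44, 0, 0, 0, 0), (0, 28, 2, 0, 0, 0)], [(0, 17)], 1114214, 0, 0⟩]

theorem o24 : cov 24 c24 = true := by decide +kernel

def c25 : List Cls := [
  ⟨26, 1, [(0, 26, 0, 0, 0, 0)], [(0, 33554428)], 8, 0, 0⟩,
  ⟨28, 2, [(0, 28, 0, 0, 0, 0)], [(0, 19173960)], 16, 0, 0⟩,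
  ⟨30, 3, [(0, 22, 1, 0, 0, 0)], [(0, 4230017)], 22, 0, 0⟩,
  ⟨33, 4, [(0, 1, 4, 0, 0, 0)], [(0, 131078)], 524, 0, 0⟩,
  ⟨42, 5, [(0, 10, 4, 0, 0, 0)], [(0, 1024)], 268288, 0, 0⟩,
  ⟨57, 6, [(0, 57, 0, 0, 0, 0), (0, 41, 2, 0, 0, 0), (0, 25, 4, 0, 0, 0), (0, 9, 6, 0, 0, 0)], [],
  9162457088, 0, 0⟩]

theorem o25 : cov 25 c25 = true := by decide +kernel

def c26 : List Cls := [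
  ⟨28, 2, [(0, 28, 0, 0, 0, 0)], [(0, 19173960)], 16, 0, 0⟩,
  ⟨30, 3, [(0, 22, 1, 0, 0, 0)], [(0, 4230017)], 22, 0, 0⟩,
  ⟨33, 3, [(0, 9, 3, 0, 0, 0)], [(0, 33978384)], 352, 0, 0⟩,
  ⟨34, 4, [(0, 26, 1, 0, 0, 0), (0, 18, 2, 0, 0, 0), (0, 10, 3, 0, 0, 0)], [(0, 262237)], 186, 0, 0⟩,
  ⟨35, 4, [(0, 3, 4, 0, 0, 0)], [(0, 524312)], 2096, 0, 0⟩,
  ⟨38, 4, [(1, 3, 4, 0, 0, 0)], [(0, 1048624), (1, 524312)], 4192, 2096, 0⟩,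
  ⟨42, 5, [(1, 7, 4, 0, 0, 0)], [(0, 256), (1, 128)], 67072, 33536, 0⟩,
  ⟨44, 5, [(0, 12, 4, 0, 0, 0)], [(0, 4096)], 1073152, 0, 0⟩,
  ⟨45, 5, [(2, 8, 4, 0, 0, 0)], [(0, 512), (2, 256)], 134144, 0, 67072⟩,
  ⟨63, 6, [(0, 63, 0, 0, 0, 0), (0, 47, 2, 0, 0, 0), (0, 31, 4, 0, 0, 0), (0, 15, 6, 0, 0, 0)], [],
  586397253632, 0, 0⟩,
  ⟨65, 6, [(2, 60, 0, 0, 0, 0), (2, 44, 2, 0, 0, 0), (2, 28, 4, 0, 0, 0), (2, 12, 6, 0, 0, 0)], [],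
  146599313408, 0, 73299656704⟩]

theorem o26 : cov 26 c26 = true := by decide +kernel

def c27 : List Cls := [
  ⟨28, 1, [(0, 28, 0, 0, 0, 0)], [(0, 134217724)], 8, 0, 0⟩,
  ⟨30, 2, [(0, 14, 2, 0, 0, 0)], [(0, 76976712)], 16, 0, 0⟩,
  ⟨33, 3, [(0, 25, 1, 0, 0, 0)], [(0, 33840136)], 176, 0, 0⟩,
  ⟨39, 4, [(0, 23, 2, 0, 0, 0)], [(0, 8423681)], 4610, 0, 0⟩,
  ⟨40, 4, [(0, 8, 4, 0, 0, 0)], [(0, 16777985)], 1538, 0, 0⟩,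
  ⟨44, 5, [(0, 44, 0, 0, 0, 0), (0, 28, 2, 0, 0, 0), (0, 12, 4, 0, 0, 0)], [(0, 4113)], 90214, 0, 0⟩,
  ⟨48, 5, [(0, 48, 0, 0, 0, 0)], [(0, 65537)], 458758, 0, 0⟩,
  ⟨50, 5, [(0, 42, 1, 0, 0, 0), (0, 34, 2, 0, 0, 0), (0, 26, 3, 0, 0, 0)], [(0, 262225)], 4784614,
  0, 0⟩]

theorem o27 : cov 27 c27 = true := by decide +kernel

def c28 : List Cls := [
  ⟨30, 2, [(0, 30, 0, 0, 0, 0)], [(0, 76695844)], 8, 0, 0⟩,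
  ⟨33, 3, [(0, 25, 1, 0, 0, 0)], [(0, 33840136)], 176, 0, 0⟩,
  ⟨35, 3, [(0, 11, 3, 0, 0, 0)], [(0, 135913540)], 472, 0, 0⟩,
  ⟨36, 4, [(0, 28, 1, 0, 0, 0), (0, 20, 2, 0, 0, 0), (0, 12, 3, 0, 0, 0)], [(0, 1048948)], 744, 0,
  0⟩,
  ⟨44, 5, [(0, 44, 0, 0, 0, 0), (0, 28, 2, 0, 0, 0), (0, 12, 4, 0, 0, 0)], [(0, 4113)], 90214, 0, 0⟩,
  ⟨48, 5, [(0, 48, 0, 0, 0, 0)], [(0, 65537)], 458758, 0, 0⟩,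
  ⟨50, 5, [(0, 42, 1, 0, 0, 0), (0, 34, 2, 0, 0, 0), (0, 26, 3, 0, 0, 0)], [(0, 262225)], 4784614,
  0, 0⟩,
  ⟨54, 5, [(0, 46, 1, 0, 0, 0)], [(0, 4522053)], 31130014, 0, 0⟩]

theorem o28 : cov 28 c28 = true := by decide +kernel

def c29 : List Cls := [
  ⟨30, 1, [(0, 30, 0, 0, 0, 0)], [(0, 536870908)], 8, 0, 0⟩,
  ⟨33, 3, [(0, 1, 4, 0, 0, 0)], [(0, 36570736)], 32, 0, 0⟩,
  ⟨38, 4, [(0, 22, 2, 0, 0, 0), (0, 14, 3, 0, 0, 0)], [(0, 329050)], 2740, 0, 0⟩,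
  ⟨40, 4, [(0, 8, 4, 0, 0, 0)], [(0, 16777985)], 1538, 0, 0⟩,
  ⟨44, 4, [(0, 4, 5, 0, 0, 0)], [(0, 289420240)], 75680, 0, 0⟩,
  ⟨45, 5, [(0, 45, 0, 0, 0, 0), (0, 29, 2, 0, 0, 0), (0, 13, 4, 0, 0, 0)], [(0, 8226)], 180428, 0,
  0⟩,
  ⟨63, 6, [(0, 63, 0, 0, 0, 0), (0, 55, 1, 0, 0, 0), (0, 47, 2, 0, 0, 0), (0, 39, 3, 0, 0, 0), (0,
  31, 4, 0, 0, 0), (0, 23, 5, 0, 0, 0), (0, 15, 6, 0, 0, 0), (0, 7, 7, 0, 0, 0)], [], 45812285440,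
  0, 0⟩]

theorem o29 : cov 29 c29 = true := by decide +kernel

def c30 : List Cls := [
  ⟨33, 2, [(0, 17, 2, 0, 0, 0)], [(0, 615813704)], 16, 0, 0⟩,
  ⟨34, 3, [(0, 18, 2, 0, 0, 0)], [(0, 72880496)], 32, 0, 0⟩,
  ⟨40, 4, [(0, 16, 3, 0, 0, 0)], [(0, 18155370)], 3796, 0, 0⟩,
  ⟨46, 5, [(1, 11, 4, 0, 0, 0), (1, 3, 5, 0, 0, 0)], [(0, 320), (1, 160)], 83840, 41920, 0⟩,
  ⟨48, 5, [(0, 48, 0, 0, 0, 0)], [(0, 65537)], 458758, 0, 0⟩,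
  ⟨52, 5, [(0, 44, 1, 0, 0, 0), (0, 36, 2, 0, 0, 0), (0, 28, 3, 0, 0, 0)], [(0, 1048900)], 19138456,
  0, 0⟩,
  ⟨57, 5, [(2, 44, 1, 0, 0, 0), (2, 36, 2, 0, 0, 0), (2, 28, 3, 0, 0, 0)], [(0, 2097800), (2,
  1048900)], 38276912, 0, 19138456⟩,
  ⟨63, 6, [(0, 63, 0, 0, 0, 0), (0, 55, 1, 0, 0, 0), (0, 47, 2, 0, 0, 0), (0, 39, 3, 0, 0, 0), (0,
  31, 4, 0, 0, 0), (0, 23, 5, 0, 0, 0), (0, 15, 6, 0, 0, 0), (0, 7, 7, 0, 0, 0)], [], 45812285440,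
  0, 0⟩,
  ⟨65, 6, [(2, 60, 0, 0, 0, 0), (2, 52, 1, 0, 0, 0), (2, 44, 2, 0, 0, 0), (2, 36, 3, 0, 0, 0), (2,
  28, 4, 0, 0, 0), (2, 20, 5, 0, 0, 0), (2, 12, 6, 0, 0, 0), (2, 4, 7, 0, 0, 0)], [], 11453071360,
  0, 5726535680⟩]

theorem o30 : cov 30 c30 = true := by decide +kernel

def c31 : List Cls := [
  ⟨33, 2, [(0, 33, 0, 0, 0, 0)], [(0, 613566756)], 8, 0, 0⟩,
  ⟨35, 3, [(0, 35, 0, 0, 0, 0)], [(0, 146280816)], 32, 0, 0⟩,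
  ⟨39, 4, [(0, 39, 0, 0, 0, 0)], [(0, 8388864)], 512, 0, 0⟩,
  ⟨50, 5, [(0, 50, 0, 0, 0, 0)], [(0, 262148)], 1835032, 0, 0⟩,
  ⟨85, 6, [(0, 53, 4, 0, 0, 0), (0, 45, 5, 0, 0, 0), (0, 29, 7, 0, 0, 0)], [(0, 2105480)],
  38465452808751504, 0, 0⟩]

theorem o31 : cov 31 c31 = true := by decide +kernel

def c32 : List Cls := [
  ⟨33, 1, [(0, 33, 0, 0, 0, 0)], [(0, 4294967292)], 8, 0, 0⟩,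
  ⟨34, 2, [(0, 34, 0, 0, 0, 0)], [(0, 1227133512)], 16, 0, 0⟩,
  ⟨35, 2, [(0, 27, 1, 0, 0, 0)], [(0, 2569310792)], 16, 0, 0⟩,
  ⟨36, 3, [(0, 28, 1, 0, 0, 0), (0, 20, 2, 0, 0, 0)], [(0, 21144965)], 78, 0, 0⟩,
  ⟨39, 3, [(0, 7, 0, 1, 0, 0)], [(0, 2340527232)], 256, 0, 0⟩,
  ⟨40, 4, [(0, 8, 0, 1, 0, 0)], [(0, 16777984)], 512, 0, 0⟩,
  ⟨48, 5, [(0, 32, 2, 0, 0, 0), (0, 8, 5, 0, 0, 0)], [(0, 5393)], 360038, 0, 0⟩,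
  ⟨51, 5, [(0, 51, 0, 0, 0, 0)], [(0, 524296)], 3670064, 0, 0⟩,
  ⟨85, 6, [(0, 53, 4, 0, 0, 0), (0, 45, 5, 0, 0, 0), (0, 29, 7, 0, 0, 0)], [(0, 2105480)],
  38465452808751504, 0, 0⟩,
  ⟨87, 6, [(2, 50, 4, 0, 0, 0), (2, 42, 5, 0, 0, 0), (2, 26, 7, 0, 0, 0)], [(0, 526370), (2,
  263185)], 9616363202187876, 0, 4808181601093938⟩]

theorem o32 : cov 32 c32 = true := by decide +kernel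

def c33 : List Cls := [
  ⟨34, 1, [(0, 34, 0, 0, 0, 0)], [(0, 8589934588)], 8, 0, 0⟩,
  ⟨35, 2, [(0, 27, 1, 0, 0, 0)], [(0, 2569310792)], 16, 0, 0⟩,
  ⟨36, 2, [(0, 20, 2, 0, 0, 0)], [(0, 4926509640)], 16, 0, 0⟩,
  ⟨38, 3, [(0, 38, 0, 0, 0, 0)], [(0, 1170246529)], 22, 0, 0⟩,
  ⟨39, 3, [(0, 7, 4, 0, 0, 0)], [(0, 2340527112)], 176, 0, 0⟩,
  ⟨42, 4, [(0, 42, 0, 0, 0, 0), (0, 10, 4, 0, 0, 0)], [(0, 1028)], 2056, 0, 0⟩,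
  ⟨44, 4, [(0, 4, 5, 0, 0, 0)], [(0, 289420241)], 10146, 0, 0⟩,
  ⟨45, 4, [(0, 45, 0, 0, 0, 0), (0, 21, 3, 0, 0, 0)], [(0, 44084545)], 23170, 0, 0⟩,
  ⟨48, 4, [(0, 0, 6, 0, 0, 0)], [(0, 4312990260)], 201832, 0, 0⟩,
  ⟨50, 5, [(0, 42, 1, 0, 0, 0), (0, 26, 3, 0, 0, 0), (0, 18, 4, 0, 0, 0)], [(0, 263189)], 858238, 0,
  0⟩,
  ⟨51, 5, [(0, 51, 0, 0, 0, 0), (0, 35, 2, 0, 0, 0), (0, 11, 5, 0, 0, 0)], [(0, 567424)], 1307392,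
  0, 0⟩,
  ⟨65, 6, [(0, 1, 8, 0, 0, 0)], [(0, 2)], 8589934628, 0, 0⟩]

theorem o33 : cov 33 c33 = true := by decide +kernel

def c34 : List Cls := [
  ⟨35, 1, [(0, 35, 0, 0, 0, 0)], [(0, 17179869180)], 8, 0, 0⟩,
  ⟨36, 2, [(0, 36, 0, 0, 0, 0)], [(0, 4908534052)], 8, 0, 0⟩,
  ⟨38, 3, [(0, 38, 0, 0, 0, 0)], [(0, 1170246529)], 22, 0, 0⟩,
  ⟨39, 3, [(0, 23, 2, 0, 0, 0)], [(0, 2332175876)], 88, 0, 0⟩,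
  ⟨44, 4, [(0, 44, 0, 0, 0, 0), (0, 12, 4, 0, 0, 0), (0, 4, 5, 0, 0, 0)], [(0, 289416129)], 1922, 0,
  0⟩,
  ⟨46, 4, [(0, 46, 0, 0, 0, 0)], [(0, 1073774593)], 2, 0, 0⟩,
  ⟨48, 4, [(0, 24, 3, 0, 0, 0)], [(0, 4647774734)], 54300, 0, 0⟩,
  ⟨50, 5, [(0, 50, 0, 0, 0, 0), (0, 42, 1, 0, 0, 0), (0, 34, 2, 0, 0, 0), (0, 26, 3, 0, 0, 0), (0,
  18, 4, 0, 0, 0), (0, 10, 5, 0, 0, 0)], [(0, 20565)], 319998, 0, 0⟩,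
  ⟨54, 5, [(0, 54, 0, 0, 0, 0), (0, 46, 1, 0, 0, 0)], [(0, 327685)], 1769502, 0, 0⟩,
  ⟨57, 5, [(2, 52, 0, 0, 0, 0), (2, 44, 1, 0, 0, 0), (2, 36, 2, 0, 0, 0), (2, 28, 3, 0, 0, 0), (2,
  20, 4, 0, 0, 0), (2, 12, 5, 0, 0, 0)], [(0, 164520), (2, 82260)], 2559984, 0, 1279992⟩,
  ⟨58, 5, [(1, 39, 2, 0, 0, 0), (1, 31, 3, 0, 0, 0), (1, 23, 4, 0, 0, 0), (1, 15, 5, 0, 0, 0)], [(0,
  5460), (1, 2730)], 22315000, 11157500, 0⟩,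
  ⟨66, 6, [(1, 63, 0, 0, 0, 0), (1, 47, 2, 0, 0, 0), (1, 31, 4, 0, 0, 0), (1, 23, 5, 0, 0, 0), (1,
  15, 6, 0, 0, 0), (1, 23, 1, 1, 0, 0)], [], 5368709120, 2684354560, 0⟩,
  ⟨69, 6, [(2, 0, 8, 0, 0, 0)], [(0, 2), (2, 1)], 8589934628, 0, 4294967314⟩,
  ⟨99, 7, [(0, 99, 0, 0, 0, 0), (0, 35, 8, 0, 0, 0)], [], 147576204389490098176, 0, 0⟩]

theorem o34 : cov 34 c34 = true := by decide +kernel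

def c35 : List Cls := [
  ⟨36, 1, [(0, 36, 0, 0, 0, 0)], [(0, 34359738364)], 8, 0, 0⟩,
  ⟨38, 2, [(0, 30, 1, 0, 0, 0)], [(0, 20554486344)], 16, 0, 0⟩,
  ⟨39, 3, [(0, 39, 0, 0, 0, 0)], [(0, 2340493058)], 44, 0, 0⟩,
  ⟨44, 4, [(0, 44, 0, 0, 0, 0), (0, 36, 1, 0, 0, 0)], [(0, 20972160)], 1280, 0, 0⟩,
  ⟨51, 5, [(0, 51, 0, 0, 0, 0), (0, 35, 2, 0, 0, 0), (0, 11, 5, 0, 0, 0), (0, 19, 0, 1, 0, 0)], [(0,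
  43136)], 258816, 0, 0⟩,
  ⟨68, 6, [(0, 60, 1, 0, 0, 0), (0, 44, 3, 0, 0, 0), (0, 36, 4, 0, 0, 0), (0, 28, 5, 0, 0, 0), (0,
  12, 7, 0, 0, 0), (0, 36, 0, 1, 0, 0)], [], 18589155328, 0, 0⟩,
  ⟨99, 7, [(0, 91, 1, 0, 0, 0), (0, 75, 3, 0, 0, 0), (0, 67, 4, 0, 0, 0), (0, 59, 5, 0, 0, 0), (0,
  43, 7, 0, 0, 0), (0, 67, 0, 1, 0, 0)], [], 39919907097012076544, 0, 0⟩]

theorem o35 : cov 35 c35 = true := by decide +kernel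

def c36 : List Cls := [
  ⟨38, 2, [(0, 30, 1, 0, 0, 0)], [(0, 20554486344)], 16, 0, 0⟩,
  ⟨39, 2, [(0, 23, 2, 0, 0, 0)], [(0, 39412077128)], 16, 0, 0⟩,
  ⟨40, 3, [(0, 0, 5, 0, 0, 0)], [(0, 4331603824)], 32, 0, 0⟩,
  ⟨44, 4, [(0, 44, 0, 0, 0, 0), (0, 12, 4, 0, 0, 0), (0, 4, 1, 1, 0, 0)], [(0, 289416144)], 672, 0,
  0⟩,
  ⟨52, 5, [(0, 52, 0, 0, 0, 0), (0, 44, 1, 0, 0, 0), (0, 36, 2, 0, 0, 0), (0, 28, 3, 0, 0, 0), (0,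
  12, 5, 0, 0, 0), (0, 4, 6, 0, 0, 0)], [(0, 86100)], 188920, 0, 0⟩,
  ⟨68, 6, [(1, 57, 1, 0, 0, 0), (1, 41, 3, 0, 0, 0), (1, 33, 4, 0, 0, 0), (1, 25, 5, 0, 0, 0), (1,
  9, 7, 0, 0, 0), (1, 33, 0, 1, 0, 0)], [], 4647288832, 2323644416, 0⟩,
  ⟨70, 6, [(0, 62, 1, 0, 0, 0)], [(0, 69)], 4523226, 0, 0⟩,
  ⟨75, 6, [(2, 46, 3, 0, 0, 0), (2, 38, 4, 0, 0, 0), (2, 30, 5, 0, 0, 0), (2, 14, 7, 0, 0, 0), (2,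
  38, 0, 1, 0, 0)], [(0, 138), (2, 69)], 148722289076, 0, 74361144538⟩,
  ⟨105, 7, [(0, 97, 1, 0, 0, 0), (0, 81, 3, 0, 0, 0), (0, 73, 4, 0, 0, 0), (0, 65, 5, 0, 0, 0), (0,
  49, 7, 0, 0, 0), (0, 73, 0, 1, 0, 0)], [], 2554874054208772898816, 0, 0⟩]

theorem o36 : cov 36 c36 = true := by decide +kernel

def c37 : List Cls := [
  ⟨38, 1, [(0, 38, 0, 0, 0, 0)], [(0, 137438953468)], 8, 0, 0⟩,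
  ⟨39, 2, [(0, 39, 0, 0, 0, 0)], [(0, 39268272420)], 8, 0, 0⟩,
  ⟨42, 3, [(0, 18, 3, 0, 0, 0)], [(0, 17396933344)], 64, 0, 0⟩,
  ⟨45, 4, [(1, 42, 0, 0, 0, 0), (1, 10, 4, 0, 0, 0), (1, 2, 1, 1, 0, 0)], [(0, 144708072), (1,
  72354036)], 336, 168, 0⟩,
  ⟨48, 4, [(2, 43, 0, 0, 0, 0), (2, 11, 4, 0, 0, 0), (2, 3, 1, 1, 0, 0)], [(0, 289416144), (2,
  144708072)], 672, 0, 336⟩,
  ⟨54, 5, [(0, 54, 0, 0, 0, 0), (0, 46, 1, 0, 0, 0), (0, 38, 2, 0, 0, 0), (0, 30, 3, 0, 0, 0), (0,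
  14, 5, 0, 0, 0), (0, 6, 6, 0, 0, 0)], [(0, 344400)], 755680, 0, 0⟩,
  ⟨56, 5, [(0, 56, 0, 0, 0, 0), (0, 48, 1, 0, 0, 0), (0, 40, 2, 0, 0, 0), (0, 32, 3, 0, 0, 0), (0,
  24, 4, 0, 0, 0), (0, 0, 7, 0, 0, 0)], [(0, 1380352)], 3874816, 0, 0⟩,
  ⟨69, 6, [(0, 37, 4, 0, 0, 0), (0, 21, 6, 0, 0, 0), (0, 5, 8, 0, 0, 0), (0, 37, 0, 1, 0, 0), (0,
  21, 2, 1, 0, 0)], [(0, 32)], 10871636544, 0, 0⟩,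
  ⟨105, 7, [(0, 105, 0, 0, 0, 0), (0, 97, 1, 0, 0, 0), (0, 41, 8, 0, 0, 0), (0, 33, 9, 0, 0, 0)],
  [], 737881021947450490880, 0, 0⟩]

theorem o37 : cov 37 c37 = true := by decide +kernel

def c38 : List Cls := [
  ⟨39, 1, [(0, 39, 0, 0, 0, 0)], [(0, 274877906940)], 8, 0, 0⟩,
  ⟨40, 2, [(0, 40, 0, 0, 0, 0)], [(0, 78536544840)], 16, 0, 0⟩,
  ⟨42, 3, [(0, 34, 1, 0, 0, 0)], [(0, 17326150000)], 32, 0, 0⟩,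
  ⟨46, 4, [(0, 46, 0, 0, 0, 0)], [(0, 1073774593)], 2, 0, 0⟩,
  ⟨50, 4, [(0, 42, 1, 0, 0, 0)], [(0, 18522611729)], 16418, 0, 0⟩,
  ⟨54, 5, [(0, 46, 1, 0, 0, 0), (0, 38, 2, 0, 0, 0), (0, 14, 5, 0, 0, 0), (0, 22, 0, 1, 0, 0)], [(0,
  17413)], 301086, 0, 0⟩,
  ⟨58, 5, [(1, 47, 1, 0, 0, 0), (1, 39, 2, 0, 0, 0), (1, 15, 5, 0, 0, 0), (1, 23, 0, 1, 0, 0)], [(0,
  69652), (1, 34826)], 1204344, 602172, 0⟩,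
  ⟨65, 5, [(2, 60, 0, 0, 0, 0), (2, 12, 6, 0, 0, 0)], [(0, 2236448), (2, 1118224)], 49070272, 0,
  24535136⟩,
  ⟨70, 6, [(0, 62, 1, 0, 0, 0)], [(0, 69)], 4523226, 0, 0⟩,
  ⟨72, 6, [(0, 8, 8, 0, 0, 0), (0, 0, 9, 0, 0, 0)], [(0, 20)], 85899346280, 0, 0⟩,
  ⟨74, 6, [(1, 39, 4, 0, 0, 0), (1, 23, 6, 0, 0, 0), (1, 7, 8, 0, 0, 0), (1, 39, 0, 1, 0, 0), (1,
  23, 2, 1, 0, 0)], [(0, 256), (1, 128)], 86973092352, 43486546176, 0⟩,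
  ⟨77, 6, [(2, 8, 8, 0, 0, 0), (2, 0, 9, 0, 0, 0)], [(0, 40), (2, 20)], 171798692560, 0,
  85899346280⟩,
  ⟨105, 7, [(2, 100, 0, 0, 0, 0), (2, 92, 1, 0, 0, 0), (2, 36, 8, 0, 0, 0), (2, 28, 9, 0, 0, 0)],
  [], 46117563871715655680, 0, 23058781935857827840⟩,
  ⟨111, 7, [(0, 111, 0, 0, 0, 0), (0, 103, 1, 0, 0, 0), (0, 47, 8, 0, 0, 0), (0, 39, 9, 0, 0, 0)],
  [], 47224385404636831416320, 0, 0⟩]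

theorem o38 : cov 38 c38 = true := by decide +kernel

def c39 : List Cls := [
  ⟨40, 1, [(0, 40, 0, 0, 0, 0)], [(0, 549755813884)], 8, 0, 0⟩,
  ⟨42, 2, [(0, 26, 2, 0, 0, 0)], [(0, 315296617032)], 16, 0, 0⟩,
  ⟨44, 3, [(0, 44, 0, 0, 0, 0)], [(0, 74895777861)], 206, 0, 0⟩,
  ⟨45, 3, [(0, 37, 1, 0, 0, 0)], [(0, 138609200000)], 256, 0, 0⟩,
  ⟨48, 4, [(0, 32, 2, 0, 0, 0)], [(0, 4312924708)], 1096, 0, 0⟩,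
  ⟨55, 5, [(0, 55, 0, 0, 0, 0), (0, 47, 1, 0, 0, 0), (0, 39, 2, 0, 0, 0), (0, 31, 3, 0, 0, 0), (0,
  15, 5, 0, 0, 0), (0, 7, 6, 0, 0, 0), (0, 23, 0, 1, 0, 0), (0, 15, 1, 1, 0, 0)], [(0, 33440)],
  200640, 0, 0⟩,
  ⟨72, 6, [(0, 56, 2, 0, 0, 0), (0, 48, 3, 0, 0, 0), (0, 24, 6, 0, 0, 0), (0, 16, 7, 0, 0, 0), (0,
  8, 8, 0, 0, 0), (0, 40, 0, 1, 0, 0), (0, 32, 1, 1, 0, 0)], [(0, 276)], 22549893992, 0, 0⟩,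
  ⟨105, 7, [(0, 97, 1, 0, 0, 0), (0, 89, 2, 0, 0, 0), (0, 81, 3, 0, 0, 0), (0, 57, 6, 0, 0, 0), (0,
  49, 7, 0, 0, 0), (0, 41, 8, 0, 0, 0), (0, 73, 0, 1, 0, 0), (0, 65, 1, 1, 0, 0)], [],
  193834927962026147840, 0, 0⟩]

theorem o39 : cov 39 c39 = true := by decide +kernel

def c40 : List Cls := [
  ⟨42, 2, [(0, 42, 0, 0, 0, 0)], [(0, 314146179364)], 8, 0, 0⟩,
  ⟨44, 3, [(0, 44, 0, 0, 0, 0), (0, 36, 1, 0, 0, 0)], [(0, 5683455365)], 78, 0, 0⟩,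
  ⟨48, 4, [(0, 16, 4, 0, 0, 0)], [(0, 4295164166)], 524, 0, 0⟩,
  ⟨56, 5, [(0, 56, 0, 0, 0, 0), (0, 48, 1, 0, 0, 0), (0, 40, 2, 0, 0, 0), (0, 16, 5, 0, 0, 0), (0,
  8, 6, 0, 0, 0), (0, 24, 0, 1, 0, 0)], [(0, 277)], 329342, 0, 0⟩,
  ⟨60, 5, [(0, 60, 0, 0, 0, 0), (0, 28, 4, 0, 0, 0), (0, 20, 5, 0, 0, 0), (0, 4, 7, 0, 0, 0)], [(0,
  1066000)], 2463840, 0, 0⟩,
  ⟨72, 6, [(1, 61, 1, 0, 0, 0), (1, 53, 2, 0, 0, 0), (1, 45, 3, 0, 0, 0), (1, 21, 6, 0, 0, 0), (1,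
  13, 7, 0, 0, 0), (1, 5, 8, 0, 0, 0), (1, 37, 0, 1, 0, 0), (1, 29, 1, 1, 0, 0)], [], 5641338880,
  2820669440, 0⟩,
  ⟨74, 6, [(0, 58, 2, 0, 0, 0), (0, 50, 3, 0, 0, 0), (0, 26, 6, 0, 0, 0), (0, 18, 7, 0, 0, 0), (0,
  10, 8, 0, 0, 0), (0, 42, 0, 1, 0, 0), (0, 34, 1, 1, 0, 0)], [(0, 1104)], 90199575968, 0, 0⟩,
  ⟨75, 6, [(2, 54, 2, 0, 0, 0), (2, 46, 3, 0, 0, 0), (2, 22, 6, 0, 0, 0), (2, 14, 7, 0, 0, 0), (2,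
  6, 8, 0, 0, 0), (2, 38, 0, 1, 0, 0), (2, 30, 1, 1, 0, 0)], [(0, 138), (2, 69)], 11274946996, 0,
  5637473498⟩,
  ⟨105, 7, [(0, 97, 1, 0, 0, 0), (0, 89, 2, 0, 0, 0), (0, 81, 3, 0, 0, 0), (0, 57, 6, 0, 0, 0), (0,
  49, 7, 0, 0, 0), (0, 41, 8, 0, 0, 0), (0, 73, 0, 1, 0, 0), (0, 65, 1, 1, 0, 0)], [],
  193834927962026147840, 0, 0⟩,
  ⟨111, 7, [(2, 98, 1, 0, 0, 0), (2, 90, 2, 0, 0, 0), (2, 82, 3, 0, 0, 0), (2, 58, 6, 0, 0, 0), (2,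
  50, 7, 0, 0, 0), (2, 42, 8, 0, 0, 0), (2, 74, 0, 1, 0, 0), (2, 66, 1, 1, 0, 0)], [],
  775339711848104591360, 0, 387669855924052295680⟩]

theorem o40 : cov 40 c40 = true := by decide +kernel

def c41 : List Cls := [
  ⟨42, 1, [(0, 42, 0, 0, 0, 0)], [(0, 2199023255548)], 8, 0, 0⟩,
  ⟨44, 2, [(0, 36, 1, 0, 0, 0)], [(0, 1315487126088)], 16, 0, 0⟩,
  ⟨45, 3, [(0, 37, 1, 0, 0, 0)], [(0, 138609200001)], 22, 0, 0⟩,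
  ⟨46, 3, [(0, 46, 0, 0, 0, 0)], [(0, 299583111447)], 2, 0, 0⟩,
  ⟨48, 3, [(0, 24, 3, 0, 0, 0)], [(0, 1113403734032)], 352, 0, 0⟩,
  ⟨50, 4, [(0, 18, 4, 0, 0, 0)], [(0, 17180656664)], 2096, 0, 0⟩,
  ⟨52, 4, [(0, 44, 1, 0, 0, 0)], [(0, 74090446917)], 138, 0, 0⟩,
  ⟨56, 4, [(0, 0, 7, 0, 0, 0)], [(0, 1189814869176)], 96624, 0, 0⟩,
  ⟨57, 5, [(0, 33, 3, 0, 0, 0), (0, 17, 1, 1, 0, 0)], [(0, 133290)], 406524, 0, 0⟩,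
  ⟨58, 5, [(0, 58, 0, 0, 0, 0), (0, 26, 4, 0, 0, 0), (0, 18, 5, 0, 0, 0), (0, 2, 7, 0, 0, 0)], [(0,
  266500)], 615960, 0, 0⟩,
  ⟨74, 6, [(0, 34, 5, 0, 0, 0), (0, 18, 7, 0, 0, 0), (0, 10, 8, 0, 0, 0), (0, 34, 1, 1, 0, 0), (0,
  18, 3, 1, 0, 0)], [(0, 1024)], 22884141056, 0, 0⟩,
  ⟨105, 7, [(0, 105, 0, 0, 0, 0), (0, 89, 2, 0, 0, 0), (0, 41, 8, 0, 0, 0), (0, 25, 10, 0, 0, 0)],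
  [], 39199929290958307328, 0, 0⟩]

theorem o41 : cov 41 c41 = true := by decide +kernel

def c42 : List Cls := [
  ⟨44, 2, [(0, 36, 1, 0, 0, 0)], [(0, 1315487126088)], 16, 0, 0⟩,
  ⟨45, 2, [(0, 29, 2, 0, 0, 0)], [(0, 2522372936264)], 16, 0, 0⟩,
  ⟨46, 3, [(0, 46, 0, 0, 0, 0)], [(0, 299583111447)], 2, 0, 0⟩,
  ⟨48, 3, [(0, 40, 1, 0, 0, 0)], [(0, 1108873600008)], 176, 0, 0⟩,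
  ⟨50, 4, [(0, 42, 1, 0, 0, 0), (0, 34, 2, 0, 0, 0), (0, 2, 6, 0, 0, 0)], [(0, 18522873949)], 186,
  0, 0⟩,
  ⟨52, 4, [(0, 44, 1, 0, 0, 0)], [(0, 74090446917)], 138, 0, 0⟩,
  ⟨54, 4, [(0, 38, 2, 0, 0, 0)], [(0, 276027181313)], 4610, 0, 0⟩,
  ⟨55, 4, [(0, 23, 4, 0, 0, 0)], [(0, 549781013249)], 1538, 0, 0⟩,
  ⟨56, 4, [(0, 0, 7, 0, 0, 0)], [(0, 1189814869176)], 96624, 0, 0⟩,
  ⟨60, 5, [(0, 60, 0, 0, 0, 0), (0, 52, 1, 0, 0, 0), (0, 28, 4, 0, 0, 0), (0, 12, 6, 0, 0, 0), (0,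
  4, 7, 0, 0, 0), (0, 28, 0, 1, 0, 0)], [(0, 87377)], 196582, 0, 0⟩,
  ⟨62, 5, [(0, 62, 0, 0, 0, 0), (0, 54, 1, 0, 0, 0), (0, 14, 6, 0, 0, 0), (0, 6, 7, 0, 0, 0)], [(0,
  349445)], 4914718, 0, 0⟩,
  ⟨65, 5, [(2, 60, 0, 0, 0, 0), (2, 36, 3, 0, 0, 0), (2, 28, 4, 0, 0, 0), (2, 20, 5, 0, 0, 0), (2,
  4, 7, 0, 0, 0), (2, 20, 1, 1, 0, 0)], [(0, 640), (2, 320)], 2625280, 0, 1312640⟩,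
  ⟨66, 5, [(0, 58, 1, 0, 0, 0), (0, 50, 2, 0, 0, 0), (0, 42, 3, 0, 0, 0)], [(0, 17185177673)],
  28246454, 0, 0⟩,
  ⟨70, 5, [(0, 62, 1, 0, 0, 0)], [(0, 296357265883)], 4523226, 0, 0⟩,
  ⟨74, 6, [(1, 31, 5, 0, 0, 0), (1, 15, 7, 0, 0, 0), (1, 7, 8, 0, 0, 0), (1, 31, 1, 1, 0, 0), (1,
  15, 3, 1, 0, 0)], [(0, 256), (1, 128)], 5721035264, 2860517632, 0⟩,
  ⟨76, 6, [(0, 60, 2, 0, 0, 0)], [(0, 4113)], 269492530, 0, 0⟩,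
  ⟨77, 6, [(2, 32, 5, 0, 0, 0), (2, 16, 7, 0, 0, 0), (2, 8, 8, 0, 0, 0), (2, 32, 1, 1, 0, 0), (2,
  16, 3, 1, 0, 0)], [(0, 512), (2, 256)], 11442070528, 0, 5721035264⟩,
  ⟨111, 7, [(0, 111, 0, 0, 0, 0), (0, 95, 2, 0, 0, 0), (0, 47, 8, 0, 0, 0), (0, 31, 10, 0, 0, 0)],
  [], 2508795474621331668992, 0, 0⟩]

theorem o42 : cov 42 c42 = true := by decide +kernel

def c43 : List Cls := [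
  ⟨44, 1, [(0, 44, 0, 0, 0, 0)], [(0, 8796093022204)], 8, 0, 0⟩,
  ⟨45, 2, [(0, 45, 0, 0, 0, 0)], [(0, 2513169434916)], 8, 0, 0⟩,
  ⟨48, 3, [(0, 40, 1, 0, 0, 0)], [(0, 1108873600008)], 176, 0, 0⟩,
  ⟨50, 3, [(0, 26, 3, 0, 0, 0)], [(0, 4453614936132)], 472, 0, 0⟩,
  ⟨51, 4, [(0, 43, 1, 0, 0, 0), (0, 35, 2, 0, 0, 0), (0, 27, 3, 0, 0, 0)], [(0, 34371928436)], 744,
  0, 0⟩,
  ⟨60, 5, [(0, 60, 0, 0, 0, 0), (0, 52, 1, 0, 0, 0), (0, 28, 4, 0, 0, 0), (0, 12, 6, 0, 0, 0), (0,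
  4, 7, 0, 0, 0), (0, 28, 0, 1, 0, 0)], [(0, 87377)], 196582, 0, 0⟩,
  ⟨62, 5, [(0, 54, 1, 0, 0, 0), (0, 22, 5, 0, 0, 0), (0, 14, 6, 0, 0, 0), (0, 14, 2, 1, 0, 0)], [(0,
  17668)], 1416728, 0, 0⟩,
  ⟨75, 6, [(0, 43, 4, 0, 0, 0), (0, 27, 6, 0, 0, 0), (0, 3, 9, 0, 0, 0), (0, 43, 0, 1, 0, 0), (0,
  27, 2, 1, 0, 0)], [(0, 2208)], 8589974336, 0, 0⟩,
  ⟨111, 7, [(0, 103, 1, 0, 0, 0), (0, 79, 4, 0, 0, 0), (0, 63, 6, 0, 0, 0), (0, 39, 9, 0, 0, 0), (0,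
  79, 0, 1, 0, 0), (0, 63, 2, 1, 0, 0)], [], 600239758335939706880, 0, 0⟩]

theorem o43 : cov 43 c43 = true := by decide +kernel

def c44 : List Cls := [
  ⟨45, 1, [(0, 45, 0, 0, 0, 0)], [(0, 17592186044412)], 8, 0, 0⟩,
  ⟨46, 2, [(0, 46, 0, 0, 0, 0)], [(0, 5026338869832)], 16, 0, 0⟩,
  ⟨48, 3, [(0, 16, 4, 0, 0, 0)], [(0, 1198349881712)], 32, 0, 0⟩,
  ⟨52, 4, [(0, 44, 1, 0, 0, 0)], [(0, 74090446917)], 138, 0, 0⟩,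
  ⟨54, 4, [(0, 30, 3, 0, 0, 0)], [(0, 297457583029)], 1898, 0, 0⟩,
  ⟨55, 4, [(0, 23, 4, 0, 0, 0)], [(0, 549781013249)], 1538, 0, 0⟩,
  ⟨56, 4, [(0, 16, 5, 0, 0, 0)], [(0, 1185465307770)], 9460, 0, 0⟩,
  ⟨60, 5, [(0, 52, 1, 0, 0, 0), (0, 20, 5, 0, 0, 0), (0, 12, 6, 0, 0, 0), (0, 12, 2, 1, 0, 0)], [(0,
  4417)], 354182, 0, 0⟩,
  ⟨63, 5, [(0, 31, 0, 1, 0, 0)], [(0, 2147483649)], 65542, 0, 0⟩,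
  ⟨68, 5, [(0, 60, 1, 0, 0, 0), (0, 52, 2, 0, 0, 0), (0, 44, 3, 0, 0, 0)], [(0, 68740710692)],
  112985816, 0, 0⟩,
  ⟨76, 6, [(0, 60, 2, 0, 0, 0)], [(0, 4113)], 269492530, 0, 0⟩,
  ⟨77, 6, [(0, 45, 4, 0, 0, 0), (0, 29, 6, 0, 0, 0), (0, 5, 9, 0, 0, 0), (0, 45, 0, 1, 0, 0), (0,
  29, 2, 1, 0, 0)], [(0, 8832)], 34359897344, 0, 0⟩,
  ⟨80, 6, [(1, 45, 4, 0, 0, 0), (1, 29, 6, 0, 0, 0), (1, 5, 9, 0, 0, 0), (1, 45, 0, 1, 0, 0), (1,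
  29, 2, 1, 0, 0)], [(0, 17664), (1, 8832)], 68719794688, 34359897344, 0⟩,
  ⟨87, 6, [(2, 50, 4, 0, 0, 0), (2, 34, 6, 0, 0, 0), (2, 10, 9, 0, 0, 0), (2, 50, 0, 1, 0, 0), (2,
  34, 2, 1, 0, 0)], [(0, 565248), (2, 282624)], 2199033430016, 0, 1099516715008⟩,
  ⟨111, 7, [(2, 98, 1, 0, 0, 0), (2, 74, 4, 0, 0, 0), (2, 58, 6, 0, 0, 0), (2, 34, 9, 0, 0, 0), (2,
  74, 0, 1, 0, 0), (2, 58, 2, 1, 0, 0)], [], 37514984895996231680, 0, 18757492447998115840⟩]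

theorem o44 : cov 44 c44 = true := by decide +kernel

def c45 : List Cls := [
  ⟨46, 1, [(0, 46, 0, 0, 0, 0)], [(0, 35184372088828)], 8, 0, 0⟩,
  ⟨48, 2, [(0, 32, 2, 0, 0, 0)], [(0, 20178983490120)], 16, 0, 0⟩,
  ⟨50, 3, [(0, 34, 2, 0, 0, 0)], [(0, 4776296194784)], 64, 0, 0⟩,
  ⟨54, 4, [(0, 22, 4, 0, 0, 0), (0, 14, 5, 0, 0, 0)], [(0, 21475820830)], 2620, 0, 0⟩,
  ⟨56, 4, [(0, 32, 3, 0, 0, 0)], [(0, 1189830332116)], 7592, 0, 0⟩,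
  ⟨62, 5, [(0, 62, 0, 0, 0, 0), (0, 54, 1, 0, 0, 0), (0, 30, 4, 0, 0, 0), (0, 14, 6, 0, 0, 0), (0,
  6, 7, 0, 0, 0), (0, 30, 0, 1, 0, 0)], [(0, 349508)], 786328, 0, 0⟩,
  ⟨65, 5, [(0, 41, 3, 0, 0, 0), (0, 33, 4, 0, 0, 0), (0, 25, 1, 1, 0, 0), (0, 17, 2, 1, 0, 0)], [(0,
  2664456)], 8122416, 0, 0⟩,
  ⟨77, 6, [(0, 37, 5, 0, 0, 0), (0, 29, 6, 0, 0, 0), (0, 21, 7, 0, 0, 0), (0, 5, 9, 0, 0, 0), (0,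
  37, 1, 1, 0, 0), (0, 29, 2, 1, 0, 0), (0, 21, 3, 1, 0, 0), (0, 13, 4, 1, 0, 0)], [(0, 640)],
  8598334720, 0, 0⟩,
  ⟨111, 7, [(0, 111, 0, 0, 0, 0), (0, 103, 1, 0, 0, 0), (0, 95, 2, 0, 0, 0), (0, 87, 3, 0, 0, 0),
  (0, 47, 8, 0, 0, 0), (0, 39, 9, 0, 0, 0), (0, 31, 10, 0, 0, 0), (0, 23, 11, 0, 0, 0)], [],
  195999646454791536640, 0, 0⟩]

theorem o45 : cov 45 c45 = true := by decide +kernel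

def c46 : List Cls := [
  ⟨48, 2, [(0, 48, 0, 0, 0, 0)], [(0, 20105355479332)], 8, 0, 0⟩,
  ⟨50, 3, [(0, 50, 0, 0, 0, 0)], [(0, 4793329783152)], 32, 0, 0⟩,
  ⟨54, 4, [(0, 54, 0, 0, 0, 0)], [(0, 274886295808)], 512, 0, 0⟩,
  ⟨62, 5, [(0, 62, 0, 0, 0, 0), (0, 54, 1, 0, 0, 0), (0, 38, 3, 0, 0, 0), (0, 14, 6, 0, 0, 0), (0,
  6, 7, 0, 0, 0), (0, 30, 0, 1, 0, 0), (0, 22, 1, 1, 0, 0), (0, 14, 2, 1, 0, 0)], [(0, 16453)],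
  295326, 0, 0⟩,
  ⟨66, 5, [(0, 50, 2, 0, 0, 0), (0, 34, 4, 0, 0, 0), (0, 26, 5, 0, 0, 0), (0, 18, 6, 0, 0, 0), (0,
  26, 1, 1, 0, 0)], [(0, 17180131353)], 65622, 0, 0⟩,
  ⟨69, 5, [(0, 37, 4, 0, 0, 0), (0, 29, 5, 0, 0, 0)], [(0, 10737418895)], 42929954, 0, 0⟩,
  ⟨70, 5, [(0, 62, 1, 0, 0, 0)], [(0, 296357265883)], 4523226, 0, 0⟩,
  ⟨74, 5, [(0, 50, 3, 0, 0, 0)], [(0, 4759114483884)], 1867789288, 0, 0⟩,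
  ⟨78, 6, [(1, 35, 5, 0, 0, 0), (1, 27, 6, 0, 0, 0), (1, 19, 7, 0, 0, 0), (1, 3, 9, 0, 0, 0), (1,
  35, 1, 1, 0, 0), (1, 27, 2, 1, 0, 0), (1, 19, 3, 1, 0, 0), (1, 11, 4, 1, 0, 0)], [(0, 320), (1,
  160)], 4299167360, 2149583680, 0⟩,
  ⟨80, 6, [(0, 48, 4, 0, 0, 0), (0, 0, 10, 0, 0, 0), (0, 48, 0, 1, 0, 0), (0, 16, 4, 1, 0, 0)], [(0,
  272)], 90261426976, 0, 0⟩,
  ⟨85, 6, [(2, 48, 4, 0, 0, 0), (2, 0, 10, 0, 0, 0), (2, 48, 0, 1, 0, 0), (2, 16, 4, 1, 0, 0)], [(0,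
  544), (2, 272)], 180522853952, 0, 90261426976⟩,
  ⟨111, 7, [(0, 111, 0, 0, 0, 0), (0, 103, 1, 0, 0, 0), (0, 95, 2, 0, 0, 0), (0, 87, 3, 0, 0, 0),
  (0, 47, 8, 0, 0, 0), (0, 39, 9, 0, 0, 0), (0, 31, 10, 0, 0, 0), (0, 23, 11, 0, 0, 0)], [],
  195999646454791536640, 0, 0⟩]

theorem o46 : cov 46 c46 = true := by decide +kernel

def c47 : List Cls := [
  ⟨48, 1, [(0, 48, 0, 0, 0, 0)], [(0, 140737488355324)], 8, 0, 0⟩,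
  ⟨50, 2, [(0, 42, 1, 0, 0, 0)], [(0, 84191176069704)], 16, 0, 0⟩,
  ⟨51, 3, [(0, 43, 1, 0, 0, 0), (0, 35, 2, 0, 0, 0)], [(0, 692878222725)], 78, 0, 0⟩,
  ⟨54, 3, [(0, 6, 6, 0, 0, 0)], [(0, 76421741852688)], 352, 0, 0⟩,
  ⟨55, 4, [(0, 39, 2, 0, 0, 0), (0, 15, 5, 0, 0, 0), (0, 7, 6, 0, 0, 0)], [(0, 592724263093)], 362,
  0, 0⟩,
  ⟨56, 4, [(0, 56, 0, 0, 0, 0)], [(0, 1099545183232)], 2048, 0, 0⟩,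
  ⟨58, 4, [(0, 42, 2, 0, 0, 0)], [(0, 4416434901009)], 8226, 0, 0⟩,
  ⟨62, 4, [(0, 38, 3, 0, 0, 0)], [(0, 76149141255428)], 223752, 0, 0⟩,
  ⟨63, 5, [(0, 31, 0, 1, 0, 0)], [(0, 2147483649)], 65542, 0, 0⟩,
  ⟨65, 5, [(0, 57, 1, 0, 0, 0), (0, 33, 4, 0, 0, 0), (0, 17, 6, 0, 0, 0), (0, 9, 7, 0, 0, 0), (0,
  25, 1, 1, 0, 0), (0, 17, 2, 1, 0, 0), (0, 9, 3, 1, 0, 0)], [(0, 8590076462)], 589028, 0, 0⟩,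
  ⟨80, 6, [(0, 48, 4, 0, 0, 0), (0, 40, 5, 0, 0, 0), (0, 32, 6, 0, 0, 0), (0, 24, 7, 0, 0, 0), (0,
  8, 9, 0, 0, 0), (0, 0, 10, 0, 0, 0), (0, 48, 0, 1, 0, 0), (0, 40, 1, 1, 0, 0), (0, 32, 2, 1, 0,
  0), (0, 24, 3, 1, 0, 0)], [(0, 5392)], 21474933536, 0, 0⟩,
  ⟨111, 7, [(0, 103, 1, 0, 0, 0), (0, 95, 2, 0, 0, 0), (0, 79, 4, 0, 0, 0), (0, 71, 5, 0, 0, 0), (0,
  63, 6, 0, 0, 0), (0, 55, 7, 0, 0, 0), (0, 39, 9, 0, 0, 0), (0, 31, 10, 0, 0, 0), (0, 79, 0, 1, 0,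
  0), (0, 71, 1, 1, 0, 0), (0, 63, 2, 1, 0, 0), (0, 55, 3, 1, 0, 0)], [], 46875716721485807616, 0,
  0⟩]

theorem o47 : cov 47 c47 = true := by decide +kernel

def c48 : List Cls := [
  ⟨50, 2, [(0, 42, 1, 0, 0, 0)], [(0, 84191176069704)], 16, 0, 0⟩,
  ⟨51, 2, [(0, 35, 2, 0, 0, 0)], [(0, 161431867920968)], 16, 0, 0⟩,
  ⟨52, 3, [(0, 52, 0, 0, 0, 0), (0, 44, 1, 0, 0, 0)], [(0, 1454964573515)], 10, 0, 0⟩,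
  ⟨54, 3, [(0, 22, 4, 0, 0, 0)], [(0, 76694392429576)], 176, 0, 0⟩,
  ⟨56, 4, [(0, 40, 2, 0, 0, 0), (0, 16, 5, 0, 0, 0), (0, 8, 6, 0, 0, 0)], [(0, 1185448526186)], 724,
  0, 0⟩,
  ⟨65, 5, [(0, 33, 0, 1, 0, 0)], [(0, 8589934596)], 262168, 0, 0⟩,
  ⟨80, 6, [(1, 45, 4, 0, 0, 0), (1, 29, 6, 0, 0, 0), (1, 21, 7, 0, 0, 0), (1, 13, 8, 0, 0, 0), (1,
  45, 0, 1, 0, 0), (1, 29, 2, 1, 0, 0), (1, 21, 3, 1, 0, 0), (1, 5, 5, 1, 0, 0)], [(0, 1280), (1,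
  640)], 4564736512, 2282368256, 0⟩,
  ⟨82, 6, [(0, 58, 3, 0, 0, 0)], [(0, 283669)], 18594982266, 0, 0⟩,
  ⟨86, 6, [(0, 54, 4, 0, 0, 0), (0, 46, 5, 0, 0, 0), (0, 38, 6, 0, 0, 0), (0, 30, 7, 0, 0, 0), (0,
  14, 9, 0, 0, 0), (0, 6, 10, 0, 0, 0), (0, 54, 0, 1, 0, 0), (0, 46, 1, 1, 0, 0), (0, 38, 2, 1, 0,
  0), (0, 30, 3, 1, 0, 0)], [(0, 345088)], 1374395746304, 0, 0⟩,
  ⟨87, 6, [(2, 50, 4, 0, 0, 0), (2, 42, 5, 0, 0, 0), (2, 34, 6, 0, 0, 0), (2, 26, 7, 0, 0, 0), (2,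
  10, 9, 0, 0, 0), (2, 2, 10, 0, 0, 0), (2, 50, 0, 1, 0, 0), (2, 42, 1, 1, 0, 0), (2, 34, 2, 1, 0,
  0), (2, 26, 3, 1, 0, 0)], [(0, 43136), (2, 21568)], 171799468288, 0, 85899734144⟩,
  ⟨115, 7, [(2, 102, 1, 0, 0, 0), (2, 94, 2, 0, 0, 0), (2, 78, 4, 0, 0, 0), (2, 70, 5, 0, 0, 0), (2,
  62, 6, 0, 0, 0), (2, 54, 7, 0, 0, 0), (2, 38, 9, 0, 0, 0), (2, 30, 10, 0, 0, 0), (2, 78, 0, 1, 0,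
  0), (2, 70, 1, 1, 0, 0), (2, 62, 2, 1, 0, 0), (2, 54, 3, 1, 0, 0)], [], 46875716721485807616, 0,
  23437858360742903808⟩]

theorem o48 : cov 48 c48 = true := by decide +kernel

def c49 : List Cls := [
  ⟨50, 1, [(0, 50, 0, 0, 0, 0)], [(0, 562949953421308)], 8, 0, 0⟩,
  ⟨51, 2, [(0, 51, 0, 0, 0, 0)], [(0, 160842843834660)], 8, 0, 0⟩,
  ⟨54, 3, [(0, 38, 2, 0, 0, 0)], [(0, 76420739116548)], 88, 0, 0⟩,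
  ⟨57, 4, [(1, 54, 0, 0, 0, 0), (1, 38, 2, 0, 0, 0), (1, 22, 4, 0, 0, 0), (1, 14, 5, 0, 0, 0), (1,
  6, 6, 0, 0, 0), (1, 22, 0, 1, 0, 0)], [(0, 42951639220), (1, 21475819610)], 360, 180, 0⟩,
  ⟨60, 4, [(2, 39, 2, 0, 0, 0), (2, 15, 5, 0, 0, 0), (2, 7, 6, 0, 0, 0)], [(0, 1185448526186), (2,
  592724263093)], 724, 0, 362⟩,
  ⟨65, 5, [(0, 65, 0, 0, 0, 0)], [(0, 8590065678)], 131108, 0, 0⟩,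
  ⟨82, 6, [(0, 82, 0, 0, 0, 0)], [(0, 262144)], 17184587776, 0, 0⟩]

theorem o49 : cov 49 c49 = true := by decide +kernel

def c50 : List Cls := [
  ⟨51, 1, [(0, 51, 0, 0, 0, 0)], [(0, 1125899906842620)], 8, 0, 0⟩,
  ⟨52, 2, [(0, 52, 0, 0, 0, 0)], [(0, 321685687669320)], 16, 0, 0⟩,
  ⟨54, 3, [(0, 54, 0, 0, 0, 0)], [(0, 76693276530434)], 44, 0, 0⟩,
  ⟨58, 4, [(0, 58, 0, 0, 0, 0), (0, 50, 1, 0, 0, 0)], [(0, 343607869760)], 640, 0, 0⟩,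
  ⟨66, 5, [(0, 50, 2, 0, 0, 0), (0, 34, 4, 0, 0, 0), (0, 26, 5, 0, 0, 0), (0, 18, 6, 0, 0, 0), (0,
  26, 1, 1, 0, 0)], [(0, 17180131353)], 65622, 0, 0⟩,
  ⟨68, 5, [(0, 68, 0, 0, 0, 0)], [(0, 68720525424)], 1048864, 0, 0⟩,
  ⟨69, 5, [(0, 53, 2, 0, 0, 0), (0, 37, 4, 0, 0, 0), (0, 29, 5, 0, 0, 0), (0, 21, 6, 0, 0, 0), (0,
  37, 0, 1, 0, 0)], [(0, 148178469069)], 852654, 0, 0⟩,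
  ⟨70, 5, [(0, 62, 1, 0, 0, 0)], [(0, 296357265883)], 4523226, 0, 0⟩,
  ⟨74, 5, [(0, 58, 2, 0, 0, 0), (0, 50, 3, 0, 0, 0), (0, 26, 6, 0, 0, 0), (0, 18, 7, 0, 0, 0)], [(0,
  5244165)], 82124318, 0, 0⟩,
  ⟨77, 5, [(2, 72, 0, 0, 0, 0)], [(0, 2199056813568), (2, 1099528406784)], 33563648, 0, 16781824⟩,
  ⟨78, 5, [(0, 54, 3, 0, 0, 0), (0, 38, 5, 0, 0, 0)], [(0, 279525463170)], 1788508940, 0, 0⟩,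
  ⟨82, 6, [(0, 58, 3, 0, 0, 0)], [(0, 283669)], 18594982266, 0, 0⟩,
  ⟨85, 6, [(2, 80, 0, 0, 0, 0)], [(0, 131072), (2, 65536)], 8592293888, 0, 4296146944⟩,
  ⟨86, 6, [(0, 14, 9, 0, 0, 0), (0, 6, 10, 0, 0, 0), (0, 54, 0, 1, 0, 0), (0, 30, 3, 1, 0, 0), (0,
  22, 4, 1, 0, 0)], [(0, 4195669)], 18351480826, 0, 0⟩,
  ⟨90, 6, [(1, 87, 0, 0, 0, 0)], [(0, 16777216), (1, 8388608)], 1099813617664, 549906808832, 0⟩]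

theorem o50 : cov 50 c50 = true := by decide +kernel

def c51 : List Cls := [
  ⟨52, 1, [(0, 52, 0, 0, 0, 0)], [(0, 2251799813685244)], 8, 0, 0⟩,
  ⟨54, 2, [(0, 38, 2, 0, 0, 0)], [(0, 1291454943367752)], 16, 0, 0⟩,
  ⟨55, 3, [(0, 15, 5, 0, 0, 0)], [(0, 141937994109296)], 32, 0, 0⟩,
  ⟨60, 4, [(0, 60, 0, 0, 0, 0), (0, 52, 1, 0, 0, 0)], [(0, 1374431479040)], 2560, 0, 0⟩,
  ⟨62, 4, [(0, 30, 4, 0, 0, 0)], [(0, 70371969695875)], 262, 0, 0⟩,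
  ⟨63, 4, [(0, 23, 5, 0, 0, 0)], [(0, 151739559394578)], 31268, 0, 0⟩,
  ⟨68, 5, [(0, 52, 2, 0, 0, 0), (0, 36, 4, 0, 0, 0), (0, 28, 5, 0, 0, 0), (0, 20, 6, 0, 0, 0), (0,
  28, 1, 1, 0, 0)], [(0, 68720525412)], 262488, 0, 0⟩,
  ⟨84, 6, [(0, 84, 0, 0, 0, 0), (0, 44, 5, 0, 0, 0), (0, 20, 8, 0, 0, 0), (0, 12, 9, 0, 0, 0), (0,
  4, 10, 0, 0, 0), (0, 44, 1, 1, 0, 0), (0, 12, 5, 1, 0, 0)], [(0, 1052928)], 17249153536, 0, 0⟩]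

theorem o51 : cov 51 c51 = true := by decide +kernel

def c52 : List Cls := [
  ⟨54, 2, [(0, 54, 0, 0, 0, 0)], [(0, 1286742750677284)], 8, 0, 0⟩,
  ⟨56, 3, [(0, 32, 3, 0, 0, 0)], [(0, 285031355912560)], 32, 0, 0⟩,
  ⟨60, 4, [(0, 52, 1, 0, 0, 0), (0, 36, 3, 0, 0, 0), (0, 28, 4, 0, 0, 0), (0, 4, 7, 0, 0, 0)], [(0,
  1374453564406)], 2028, 0, 0⟩,
  ⟨62, 4, [(0, 30, 4, 0, 0, 0)], [(0, 70371969695875)], 262, 0, 0⟩,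
  ⟨65, 4, [(0, 25, 5, 0, 0, 0)], [(0, 606958237578313)], 59538, 0, 0⟩,
  ⟨66, 4, [(0, 58, 1, 0, 0, 0)], [(0, 1213897882288162)], 32836, 0, 0⟩,
  ⟨69, 5, [(0, 53, 2, 0, 0, 0), (0, 37, 4, 0, 0, 0), (0, 29, 5, 0, 0, 0), (0, 21, 6, 0, 0, 0), (0,
  37, 0, 1, 0, 0)], [(0, 148178469069)], 852654, 0, 0⟩,
  ⟨70, 5, [(0, 70, 0, 0, 0, 0), (0, 62, 1, 0, 0, 0)], [(0, 21475164187)], 327770, 0, 0⟩,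
  ⟨74, 5, [(0, 58, 2, 0, 0, 0), (0, 42, 4, 0, 0, 0), (0, 34, 5, 0, 0, 0), (0, 26, 6, 0, 0, 0), (0,
  34, 1, 1, 0, 0)], [(0, 4398113626368)], 16799232, 0, 0⟩,
  ⟨84, 6, [(1, 81, 0, 0, 0, 0), (1, 41, 5, 0, 0, 0), (1, 17, 8, 0, 0, 0), (1, 9, 9, 0, 0, 0), (1, 1,
  10, 0, 0, 0), (1, 41, 1, 1, 0, 0), (1, 9, 5, 1, 0, 0)], [(0, 263232), (1, 131616)], 4312288384,
  2156144192, 0⟩,
  ⟨86, 6, [(0, 14, 9, 0, 0, 0), (0, 6, 10, 0, 0, 0), (0, 54, 0, 1, 0, 0), (0, 30, 3, 1, 0, 0), (0,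
  22, 4, 1, 0, 0)], [(0, 4195669)], 18351480826, 0, 0⟩,
  ⟨87, 6, [(2, 82, 0, 0, 0, 0), (2, 42, 5, 0, 0, 0), (2, 18, 8, 0, 0, 0), (2, 10, 9, 0, 0, 0), (2,
  2, 10, 0, 0, 0), (2, 42, 1, 1, 0, 0), (2, 10, 5, 1, 0, 0)], [(0, 526464), (2, 263232)],
  8624576768, 0, 4312288384⟩]

theorem o52 : cov 52 c52 = true := by decide +kernel

def c53 : List Cls := [
  ⟨54, 1, [(0, 54, 0, 0, 0, 0)], [(0, 9007199254740988)], 8, 0, 0⟩,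
  ⟨55, 2, [(0, 55, 0, 0, 0, 0)], [(0, 2573485501354568)], 16, 0, 0⟩,
  ⟨56, 2, [(0, 48, 1, 0, 0, 0)], [(0, 5388235268461128)], 16, 0, 0⟩,
  ⟨57, 3, [(0, 49, 1, 0, 0, 0)], [(0, 567743283204464)], 32, 0, 0⟩,
  ⟨62, 4, [(0, 30, 4, 0, 0, 0)], [(0, 70371969695875)], 262, 0, 0⟩,
  ⟨63, 4, [(0, 39, 3, 0, 0, 0), (0, 23, 5, 0, 0, 0), (0, 7, 7, 0, 0, 0)], [(0, 151737243536288)],
  5952, 0, 0⟩,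
  ⟨65, 4, [(0, 57, 1, 0, 0, 0)], [(0, 606948941144081)], 16418, 0, 0⟩,
  ⟨68, 4, [(0, 28, 5, 0, 0, 0)], [(0, 4855665900626508)], 214168, 0, 0⟩,
  ⟨69, 5, [(0, 37, 0, 1, 0, 0), (0, 29, 1, 1, 0, 0)], [(0, 10737418245)], 327710, 0, 0⟩,
  ⟨72, 5, [(0, 72, 0, 0, 0, 0), (0, 64, 1, 0, 0, 0)], [(0, 85900656748)], 1311080, 0, 0⟩,
  ⟨85, 6, [(0, 85, 0, 0, 0, 0), (0, 77, 1, 0, 0, 0)], [(0, 163840)], 10740367360, 0, 0⟩]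

theorem o53 : cov 53 c53 = true := by decide +kernel

def cs : List (List Cls) := [c1, c2, c3, c4, c5, c6, c7, c8, c9, c10, c11, c12, c13, c14, c15, c16, c17, c18, c19, c20, c21,
  c22, c23, c24, c25, c26, c27, c28, c29, c30, c31, c32, c33, c34, c35, c36, c37, c38, c39, c40,
  c41, c42, c43, c44, c45, c46, c47, c48, c49, c50, c51, c52, c53]

theorem ok : goD 1 cs = true :=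
  goD_cons o1 (
  goD_cons o2 (
  goD_cons o3 (
  goD_cons o4 (
  goD_cons o5 (
  goD_cons o6 (
  goD_cons o7 (
  goD_cons o8 (
  goD_cons o9 (
  goD_cons o10 (
  goD_cons o11 (
  goD_cons o12 (
  goD_cons o13 (
  goD_cons o14 (
  goD_cons o15 (
  goD_cons o16 (
  goD_cons o17 (
  goD_cons o18 (
  goD_cons o19 (
  goD_cons o20 (
  goD_cons o21 (
  goD_cons o22 (
  goD_cons o23 (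
  goD_cons o24 (
  goD_cons o25 (
  goD_cons o26 (
  goD_cons o27 (
  goD_cons o28 (
  goD_cons o29 (
  goD_cons o30 (
  goD_cons o31 (
  goD_cons o32 (
  goD_cons o33 (
  goD_cons o34 (
  goD_cons o35 (
  goD_cons o36 (
  goD_cons o37 (
  goD_cons o38 (
  goD_cons o39 (
  goD_cons o40 (
  goD_cons o41 (
  goD_cons o42 (
  goD_cons o43 (
  goD_cons o44 (
  goD_cons o45 (
  goD_cons o46 (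
  goD_cons o47 (
  goD_cons o48 (
  goD_cons o49 (
  goD_cons o50 (
  goD_cons o51 (
  goD_cons o52 (
  goD_cons o53 (
  goD_nil 54
  ) rfl ) rfl ) rfl ) rfl ) rfl ) rfl ) rfl ) rfl ) rfl ) rfl ) rfl ) rfl ) rfl ) rfl ) rfl ) rfl )
  rfl ) rfl ) rfl ) rfl ) rfl ) rfl ) rfl ) rfl ) rfl ) rfl ) rfl ) rfl ) rfl ) rfl ) rfl ) rfl )
  rfl ) rfl ) rfl ) rfl ) rfl ) rfl ) rfl ) rfl ) rfl ) rfl ) rfl ) rfl ) rfl ) rfl ) rfl ) rfl )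
  rfl ) rfl ) rfl ) rfl ) rfl

end Pool.Agent.H636.HD.D0
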