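import Pool.Agent.H636.HD.Exc

set_option autoImplicit false

/-! MP_257582_lc: certificates for exceptional pairs (generated). -/

namespace Pool.Agent.H636.HD.DE

open Pool.Agent.H636.HD

def es : List Ex := [
  ⟨10, 4, 3, [(3, 2, 0, 0, 0, 0)], [], []⟩,
  ⟨12, 3, 2, [(1, 9, 0, 0, 0, 0)], [(0, 72), (1, 36)], [(1, [0, 1], [3, 2, 1])]⟩,
  ⟨15, 3, 2, [(2, 2, 1, 0, 0, 0)], [(0, 152)], []⟩,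
  ⟨15, 8, 4, [(1, 12, 0, 0, 0, 0), (1, 4, 1, 0, 0, 0)], [], [(1, [3], [8, 3])]⟩,
  ⟨18, 4, 3, [(0, 10, 1, 0, 0, 0), (2, 5, 1, 0, 0, 0)], [(0, 1096)], []⟩,
  ⟨18, 7, 3, [(2, 5, 1, 0, 0, 0)], [(0, 64), (2, 32)], [(2, [0, 2], [5, 4, 1]), (2, [1, 2], [5, 4,
  2])]⟩,
  ⟨18, 8, 4, [(1, 15, 0, 0, 0, 0), (1, 7, 1, 0, 0, 0)], [], [(0, [2, 3], [8, 4]), (1, [1, 3], [8, 3,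
  2]), (1, [0, 1, 3], [8, 3, 2, 1])]⟩,
  ⟨20, 8, 4, [(0, 12, 1, 0, 0, 0)], [(0, 17)], [(0, [0, 1, 3], [8, 2, 1]), (0, [0, 2, 3], [8, 4,
  1]), (0, [1, 2, 3], [8, 4, 2])]⟩,
  ⟨20, 9, 4, [(0, 4, 2, 0, 0, 0)], [(0, 16)], [(0, [2, 3], [8, 4])]⟩,
  ⟨21, 8, 4, [(0, 5, 2, 0, 0, 0), (2, 8, 1, 0, 0, 0), (2, 0, 2, 0, 0, 0)], [(0, 32)], [(0, [0, 1,
  3], [8, 2, 1]), (2, [1, 3], [8, 5, 2]), (2, [2, 3], [8, 5, 4])]⟩,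
  ⟨21, 9, 4, [(2, 0, 2, 0, 0, 0)], [(0, 2), (2, 1)], [(2, [3], [8, 5])]⟩,
  ⟨21, 10, 4, [(2, 0, 2, 0, 0, 0)], [(0, 2), (2, 1)], [(2, [3], [8, 5])]⟩,
  ⟨24, 6, 3, [(4, 7, 0, 0, 0, 0)], [], []⟩,
  ⟨26, 8, 4, [(5, 6, 0, 0, 0, 0)], [], []⟩,
  ⟨26, 12, 4, [(3, 2, 2, 0, 0, 0)], [(0, 16), (1, 8), (2, 8), (3, 4)], [(2, [1, 3], [8, 5, 2]), (2,
  [0, 1, 3], [8, 5, 2, 1]), (3, [0, 3], [8, 5, 3, 1]), (3, [1, 3], [8, 5, 3, 2])]⟩,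
  ⟨30, 8, 4, [(5, 10, 0, 0, 0, 0), (5, 2, 1, 0, 0, 0)], [], []⟩,
  ⟨30, 11, 4, [(1, 27, 0, 0, 0, 0)], [(0, 4096), (1, 2048)], [(1, [2, 3], [8, 4, 3])]⟩,
  ⟨33, 10, 4, [(4, 8, 1, 0, 0, 0)], [(0, 2)], [(0, [0, 2, 3], [8, 4, 1])]⟩,
  ⟨33, 11, 4, [(6, 11, 0, 0, 0, 0), (6, 3, 1, 0, 0, 0)], [], []⟩,
  ⟨33, 15, 4, [(6, 11, 0, 0, 0, 0)], [], []⟩,
  ⟨33, 17, 5, [(2, 28, 0, 0, 0, 0), (2, 20, 1, 0, 0, 0), (2, 12, 2, 0, 0, 0), (2, 4, 3, 0, 0, 0)],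
  [], [(2, [4], [16, 5])]⟩,
  ⟨33, 18, 5, [(4, 16, 0, 0, 0, 0)], [], [(4, [4], [17, 16])]⟩,
  ⟨33, 21, 5, [(4, 16, 0, 0, 0, 0), (4, 0, 2, 0, 0, 0)], [], [(4, [3], [17, 8])]⟩,
  ⟨34, 16, 5, [(5, 14, 0, 0, 0, 0)], [], []⟩,
  ⟨35, 8, 4, [(0, 27, 1, 0, 0, 0), (0, 3, 4, 0, 0, 0)], [(0, 40969)], [(0, [0, 2, 3], [8, 4, 1]),
  (0, [1, 2, 3], [8, 4, 2])]⟩,
  ⟨35, 13, 4, [(4, 10, 1, 0, 0, 0)], [(0, 8)], []⟩,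
  ⟨35, 16, 5, [(0, 35, 0, 0, 0, 0), (1, 24, 1, 0, 0, 0), (1, 16, 2, 0, 0, 0), (1, 8, 3, 0, 0, 0)],
  [(0, 10), (1, 1)], [(0, [0, 2, 4], [16, 4, 1]), (1, [1, 4], [16, 3, 2]), (1, [2, 4], [16, 4, 3])]⟩,
  ⟨35, 19, 5, [(1, 24, 1, 0, 0, 0), (1, 16, 2, 0, 0, 0), (1, 8, 3, 0, 0, 0)], [(0, 2), (1, 1)], [(1,
  [2, 4], [16, 4, 3])]⟩,
  ⟨35, 20, 5, [(1, 24, 1, 0, 0, 0), (1, 16, 2, 0, 0, 0), (1, 8, 3, 0, 0, 0)], [(0, 2), (1, 1)], [(1,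
  [2, 4], [16, 4, 3])]⟩,
  ⟨35, 23, 5, [(0, 19, 2, 0, 0, 0), (1, 24, 1, 0, 0, 0), (1, 16, 2, 0, 0, 0)], [(0, 8)], [(0, [1, 3,
  4], [16, 8, 2]), (0, [0, 2, 3, 4], [16, 8, 4, 1]), (1, [1, 3, 4], [16, 8, 3, 2]), (1, [2, 3, 4],
  [16, 8, 4, 3])]⟩,
  ⟨36, 9, 4, [(0, 4, 4, 0, 0, 0)], [(0, 1048624)], [(0, [2, 3], [8, 4])]⟩,
  ⟨36, 16, 5, [(0, 28, 1, 0, 0, 0)], [(0, 17)], [(0, [3, 4], [16, 8]), (0, [0, 1, 2, 4], [16, 4, 2,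
  1]), (0, [0, 1, 3, 4], [16, 8, 2, 1]), (0, [0, 2, 3, 4], [16, 8, 4, 1]), (0, [1, 2, 3, 4], [16, 8,
  4, 2])]⟩,
  ⟨36, 17, 5, [(0, 36, 0, 0, 0, 0)], [(0, 16)], [(0, [2, 4], [16, 4])]⟩,
  ⟨38, 8, 4, [(4, 13, 1, 0, 0, 0)], [(0, 69)], []⟩,
  ⟨38, 11, 4, [(4, 13, 1, 0, 0, 0)], [(0, 69)], []⟩,
  ⟨38, 15, 4, [(4, 13, 1, 0, 0, 0)], [(0, 68)], []⟩,
  ⟨38, 17, 5, [(0, 38, 0, 0, 0, 0)], [(0, 64)], [(0, [0, 2, 4], [16, 4, 1]), (0, [1, 2, 4], [16, 4,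
  2])]⟩,
  ⟨39, 9, 4, [(0, 7, 4, 0, 0, 0), (4, 6, 2, 0, 0, 0)], [(0, 8388864)], []⟩,
  ⟨39, 16, 5, [(0, 39, 0, 0, 0, 0), (0, 31, 1, 0, 0, 0)], [(0, 10)], [(0, [0, 1, 4], [16, 2, 1])]⟩,
  ⟨39, 19, 5, [(1, 36, 0, 0, 0, 0)], [(0, 32), (1, 16)], [(1, [2, 4], [16, 4, 3])]⟩,
  ⟨39, 20, 5, [(4, 22, 0, 0, 0, 0), (4, 14, 1, 0, 0, 0)], [], [(4, [4], [17, 16]), (4, [0, 4], [17,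
  16, 1]), (4, [1, 4], [17, 16, 2])]⟩,
  ⟨39, 23, 5, [(4, 22, 0, 0, 0, 0), (4, 14, 1, 0, 0, 0)], [], [(4, [4], [17, 16]), (4, [0, 4], [17,
  16, 1]), (4, [1, 4], [17, 16, 2])]⟩,
  ⟨39, 24, 5, [(1, 28, 1, 0, 0, 0), (1, 20, 2, 0, 0, 0), (1, 12, 3, 0, 0, 0)], [(0, 32), (1, 16)],
  [(1, [3, 4], [16, 8, 3])]⟩,
  ⟨40, 16, 5, [(0, 16, 3, 0, 0, 0)], [(0, 277)], [(0, [0, 1, 4], [16, 2, 1]), (0, [0, 3, 4], [16, 8,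
  1]), (0, [1, 3, 4], [16, 8, 2])]⟩,
  ⟨40, 17, 5, [(0, 32, 1, 0, 0, 0)], [(0, 276)], [(0, [3, 4], [16, 8])]⟩,
  ⟨42, 8, 4, [(0, 18, 3, 0, 0, 0), (0, 10, 4, 0, 0, 0), (1, 23, 2, 0, 0, 0), (1, 7, 0, 1, 0, 0)],
  [(0, 5570734), (1, 34945)], [(1, [2, 3], [8, 4, 3])]⟩,
  ⟨42, 15, 4, [(2, 21, 2, 0, 0, 0), (2, 5, 4, 0, 0, 0)], [(0, 17472), (2, 8736)], [(2, [1, 2, 3],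
  [8, 5, 4, 2])]⟩,
  ⟨42, 18, 5, [(0, 34, 1, 0, 0, 0)], [(0, 1104)], [(0, [0, 3, 4], [16, 8, 1]), (0, [1, 3, 4], [16,
  8, 2])]⟩,
  ⟨42, 19, 5, [(0, 42, 0, 0, 0, 0), (0, 34, 1, 0, 0, 0)], [(0, 80)], [(0, [1, 2, 4], [16, 4, 2])]⟩,
  ⟨45, 11, 4, [(1, 42, 0, 0, 0, 0)], [(0, 134221824), (1, 67110912)], [(1, [2, 3], [8, 4, 3])]⟩,
  ⟨45, 17, 5, [(2, 8, 4, 0, 0, 0)], [(0, 512), (2, 256)], [(2, [4], [16, 5])]⟩,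
  ⟨45, 18, 5, [(2, 8, 4, 0, 0, 0)], [(0, 512), (2, 256)], [(2, [4], [16, 5])]⟩,
  ⟨45, 21, 5, [(0, 45, 0, 0, 0, 0), (0, 37, 1, 0, 0, 0)], [(0, 640)], [(0, [0, 3, 4], [16, 8, 1])]⟩,
  ⟨45, 22, 5, [(0, 45, 0, 0, 0, 0), (0, 37, 1, 0, 0, 0)], [(0, 640)], [(0, [0, 3, 4], [16, 8, 1])]⟩,
  ⟨45, 25, 5, [(2, 40, 0, 0, 0, 0)], [(0, 512), (2, 256)], [(2, [3, 4], [16, 8, 5])]⟩,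
  ⟨45, 26, 5, [(2, 40, 0, 0, 0, 0)], [(0, 512), (2, 256)], [(2, [3, 4], [16, 8, 5])]⟩,
  ⟨46, 18, 5, [(0, 46, 0, 0, 0, 0), (0, 30, 2, 0, 0, 0)], [(0, 68)], [(0, [0, 2, 4], [16, 4, 1]),
  (0, [1, 2, 4], [16, 4, 2])]⟩,
  ⟨46, 19, 5, [(0, 38, 1, 0, 0, 0), (0, 30, 2, 0, 0, 0)], [(0, 1348)], [(0, [3, 4], [16, 8]), (0,
  [0, 3, 4], [16, 8, 1]), (0, [1, 3, 4], [16, 8, 2])]⟩,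
  ⟨46, 22, 5, [(0, 46, 0, 0, 0, 0), (0, 38, 1, 0, 0, 0)], [(0, 1280)], [(0, [0, 3, 4], [16, 8, 1]),
  (0, [1, 3, 4], [16, 8, 2])]⟩,
  ⟨48, 10, 4, [(0, 40, 1, 0, 0, 0), (0, 8, 5, 0, 0, 0)], [(0, 70934)], [(0, [0, 2, 3], [8, 4, 1])]⟩,
  ⟨48, 17, 5, [(3, 8, 4, 0, 0, 0), (3, 0, 5, 0, 0, 0)], [(0, 80), (1, 40), (2, 40), (3, 20)], [(3,
  [2, 3], [8, 5, 4, 3])]⟩,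
  ⟨51, 9, 4, [(4, 2, 4, 0, 0, 0)], [(0, 524312)], []⟩,
  ⟨51, 23, 5, [(0, 35, 2, 0, 0, 0), (1, 40, 1, 0, 0, 0), (1, 32, 2, 0, 0, 0)], [(0, 533160), (1,
  5392)], [(0, [1, 3, 4], [16, 8, 2]), (0, [0, 2, 3, 4], [16, 8, 4, 1]), (1, [1, 3, 4], [16, 8, 3,
  2]), (1, [2, 3, 4], [16, 8, 4, 3])]⟩,
  ⟨51, 24, 5, [(4, 34, 0, 0, 0, 0), (4, 26, 1, 0, 0, 0), (4, 18, 2, 0, 0, 0), (4, 10, 3, 0, 0, 0)],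
  [], [(4, [4], [17, 16]), (4, [0, 4], [17, 16, 1]), (4, [2, 4], [17, 16, 4]), (4, [0, 1, 4], [17,
  16, 2, 1]), (4, [0, 2, 4], [17, 16, 4, 1]), (4, [1, 2, 4], [17, 16, 4, 2])]⟩,
  ⟨51, 27, 5, [(1, 40, 1, 0, 0, 0)], [(0, 141314), (1, 70657)], [(1, [2, 3, 4], [16, 8, 4, 3])]⟩,
  ⟨51, 28, 5, [(1, 40, 1, 0, 0, 0)], [(0, 141314), (1, 70657)], [(1, [2, 3, 4], [16, 8, 4, 3])]⟩,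
  ⟨51, 32, 6, [(0, 51, 0, 0, 0, 0), (0, 19, 4, 0, 0, 0), (1, 40, 1, 0, 0, 0), (1, 32, 2, 0, 0, 0),
  (1, 24, 3, 0, 0, 0), (1, 16, 4, 0, 0, 0)], [], [(0, [0, 2, 5], [32, 4, 1]), (1, [1, 5], [32, 3,
  2]), (1, [2, 5], [32, 4, 3])]⟩,
  ⟨52, 24, 5, [(0, 44, 1, 0, 0, 0)], [(0, 1130513)], [(0, [0, 1, 3, 4], [16, 8, 2, 1]), (0, [0, 2,
  3, 4], [16, 8, 4, 1]), (0, [1, 2, 3, 4], [16, 8, 4, 2])]⟩,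
  ⟨52, 25, 5, [(0, 36, 2, 0, 0, 0)], [(0, 1052944)], [(0, [2, 3, 4], [16, 8, 4])]⟩,
  ⟨55, 27, 5, [(4, 38, 0, 0, 0, 0), (4, 30, 1, 0, 0, 0)], [(0, 10), (4, 5)], [(4, [4], [17, 16]),
  (4, [0, 4], [17, 16, 1]), (4, [1, 4], [17, 16, 2])]⟩,
  ⟨55, 28, 5, [(4, 38, 0, 0, 0, 0), (4, 30, 1, 0, 0, 0)], [(0, 10), (4, 5)], [(4, [4], [17, 16]),
  (4, [0, 4], [17, 16, 1]), (4, [1, 4], [17, 16, 2])]⟩,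
  ⟨55, 31, 5, [(4, 38, 0, 0, 0, 0), (4, 30, 1, 0, 0, 0)], [(0, 8), (4, 5)], [(4, [0, 4], [17, 16,
  1]), (4, [1, 4], [17, 16, 2])]⟩,
  ⟨55, 32, 6, [(1, 52, 0, 0, 0, 0), (1, 44, 1, 0, 0, 0), (1, 20, 4, 0, 0, 0), (1, 12, 5, 0, 0, 0)],
  [], [(1, [5], [32, 3])]⟩,
  ⟨55, 35, 6, [(1, 52, 0, 0, 0, 0), (1, 20, 4, 0, 0, 0)], [], [(1, [2, 5], [32, 4, 3])]⟩,
  ⟨55, 36, 6, [(4, 38, 0, 0, 0, 0), (4, 30, 1, 0, 0, 0)], [], [(4, [5], [32, 17]), (4, [0, 5], [32,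
  17, 1]), (4, [1, 5], [32, 17, 2])]⟩,
  ⟨57, 15, 4, [(6, 3, 4, 0, 0, 0)], [(0, 2097248), (2, 1048624)], []⟩,
  ⟨57, 19, 5, [(0, 49, 1, 0, 0, 0), (0, 41, 2, 0, 0, 0), (0, 33, 3, 0, 0, 0), (0, 17, 5, 0, 0, 0)],
  [(0, 2631810)], [(0, [1, 2, 4], [16, 4, 2])]⟩,
  ⟨57, 29, 5, [(4, 8, 4, 0, 0, 0)], [(0, 512), (4, 256)], [(4, [4], [17, 16])]⟩,
  ⟨57, 30, 5, [(4, 8, 4, 0, 0, 0)], [(0, 512), (4, 256)], [(4, [4], [17, 16])]⟩,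
  ⟨57, 33, 6, [(2, 52, 0, 0, 0, 0), (2, 44, 1, 0, 0, 0), (2, 20, 4, 0, 0, 0), (2, 12, 5, 0, 0, 0)],
  [], [(2, [5], [32, 5])]⟩,
  ⟨57, 34, 6, [(0, 57, 0, 0, 0, 0), (0, 49, 1, 0, 0, 0), (0, 25, 4, 0, 0, 0), (0, 17, 5, 0, 0, 0)],
  [], [(0, [0, 2, 5], [32, 4, 1])]⟩,
  ⟨57, 37, 6, [(4, 40, 0, 0, 0, 0), (4, 8, 4, 0, 0, 0)], [], [(4, [3, 4], [17, 16, 8])]⟩,
  ⟨58, 16, 5, [(5, 6, 4, 0, 0, 0)], [(0, 256), (1, 128)], []⟩,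
  ⟨63, 32, 6, [(1, 60, 0, 0, 0, 0), (1, 52, 1, 0, 0, 0), (1, 44, 2, 0, 0, 0), (1, 36, 3, 0, 0, 0),
  (1, 28, 4, 0, 0, 0), (1, 20, 5, 0, 0, 0), (1, 12, 6, 0, 0, 0), (1, 4, 7, 0, 0, 0)], [], [(1, [5],
  [32, 3])]⟩,
  ⟨63, 35, 6, [(1, 60, 0, 0, 0, 0), (1, 44, 2, 0, 0, 0), (1, 28, 4, 0, 0, 0), (1, 12, 6, 0, 0, 0)],
  [], [(1, [2, 5], [32, 4, 3])]⟩,
  ⟨63, 36, 6, [(0, 55, 1, 0, 0, 0), (0, 47, 2, 0, 0, 0), (0, 39, 3, 0, 0, 0), (0, 31, 4, 0, 0, 0)],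
  [], [(0, [1, 3, 5], [32, 8, 2]), (0, [1, 4, 5], [32, 16, 2]), (0, [0, 1, 4, 5], [32, 16, 2, 1]),
  (0, [0, 2, 3, 5], [32, 8, 4, 1])]⟩,
  ⟨63, 39, 6, [(0, 55, 1, 0, 0, 0), (0, 47, 2, 0, 0, 0), (0, 39, 3, 0, 0, 0), (0, 31, 4, 0, 0, 0),
  (1, 52, 1, 0, 0, 0), (1, 20, 5, 0, 0, 0)], [], [(0, [1, 4, 5], [32, 16, 2]), (0, [0, 1, 4, 5],
  [32, 16, 2, 1]), (1, [0, 3, 5], [32, 8, 3, 1]), (1, [2, 3, 5], [32, 8, 4, 3])]⟩,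
  ⟨63, 40, 6, [(1, 60, 0, 0, 0, 0), (1, 52, 1, 0, 0, 0), (1, 28, 4, 0, 0, 0), (1, 20, 5, 0, 0, 0)],
  [], [(1, [3, 5], [32, 8, 3])]⟩,
  ⟨65, 19, 5, [(0, 57, 1, 0, 0, 0), (0, 33, 4, 0, 0, 0), (0, 17, 6, 0, 0, 0), (0, 9, 7, 0, 0, 0)],
  [(0, 2665002)], [(0, [1, 2, 4], [16, 4, 2])]⟩,
  ⟨65, 33, 6, [(2, 60, 0, 0, 0, 0), (2, 52, 1, 0, 0, 0), (2, 44, 2, 0, 0, 0), (2, 36, 3, 0, 0, 0),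
  (2, 28, 4, 0, 0, 0), (2, 20, 5, 0, 0, 0), (2, 12, 6, 0, 0, 0), (2, 4, 7, 0, 0, 0)], [], [(2, [5],
  [32, 5])]⟩,
  ⟨65, 34, 6, [(0, 57, 1, 0, 0, 0), (0, 49, 2, 0, 0, 0), (0, 41, 3, 0, 0, 0), (0, 33, 4, 0, 0, 0),
  (0, 25, 5, 0, 0, 0), (0, 17, 6, 0, 0, 0), (0, 9, 7, 0, 0, 0)], [(0, 2)], [(0, [0, 2, 5], [32, 4,
  1])]⟩,
  ⟨65, 37, 6, [(4, 32, 2, 0, 0, 0), (4, 0, 6, 0, 0, 0)], [], [(4, [5], [32, 17])]⟩,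
  ⟨65, 38, 6, [(4, 32, 2, 0, 0, 0), (4, 0, 6, 0, 0, 0)], [], [(4, [5], [32, 17])]⟩,
  ⟨65, 41, 6, [(4, 48, 0, 0, 0, 0), (4, 16, 4, 0, 0, 0)], [], [(4, [5], [32, 17])]⟩,
  ⟨65, 42, 6, [(4, 48, 0, 0, 0, 0), (4, 16, 4, 0, 0, 0)], [], [(4, [5], [32, 17])]⟩,
  ⟨68, 16, 5, [(0, 68, 0, 0, 0, 0), (0, 60, 1, 0, 0, 0), (0, 44, 3, 0, 0, 0), (0, 36, 4, 0, 0, 0),
  (0, 28, 5, 0, 0, 0), (0, 20, 6, 0, 0, 0), (0, 12, 7, 0, 0, 0), (0, 20, 2, 1, 0, 0)], [(0,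
  1052677)], [(0, [0, 1, 4], [16, 2, 1]), (0, [1, 2, 4], [16, 4, 2])]⟩,
  ⟨69, 37, 6, [(0, 61, 1, 0, 0, 0), (0, 53, 2, 0, 0, 0), (0, 45, 3, 0, 0, 0), (0, 37, 4, 0, 0, 0),
  (0, 29, 5, 0, 0, 0), (0, 21, 6, 0, 0, 0), (0, 13, 7, 0, 0, 0)], [(0, 32)], [(0, [0, 3, 5], [32, 8,
  1])]⟩,
  ⟨69, 38, 6, [(0, 61, 1, 0, 0, 0), (0, 53, 2, 0, 0, 0), (0, 45, 3, 0, 0, 0), (0, 37, 4, 0, 0, 0),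
  (0, 29, 5, 0, 0, 0), (0, 21, 6, 0, 0, 0), (0, 13, 7, 0, 0, 0)], [(0, 32)], [(0, [0, 3, 5], [32, 8,
  1])]⟩,
  ⟨69, 41, 6, [(2, 48, 2, 0, 0, 0), (2, 32, 4, 0, 0, 0), (2, 16, 6, 0, 0, 0)], [(0, 2), (2, 1)],
  [(2, [3, 5], [32, 8, 5])]⟩,
  ⟨69, 42, 6, [(2, 48, 2, 0, 0, 0), (2, 32, 4, 0, 0, 0), (2, 16, 6, 0, 0, 0)], [(0, 2), (2, 1)],
  [(2, [3, 5], [32, 8, 5])]⟩,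
  ⟨69, 45, 6, [(0, 61, 1, 0, 0, 0), (0, 37, 4, 0, 0, 0), (0, 29, 5, 0, 0, 0)], [(0, 32)], [(0, [0,
  4, 5], [32, 16, 1])]⟩,
  ⟨72, 17, 5, [(0, 64, 1, 0, 0, 0)], [(0, 1185429063532)], [(0, [3, 4], [16, 8])]⟩,
  ⟨75, 43, 6, [(4, 50, 1, 0, 0, 0), (4, 34, 3, 0, 0, 0), (4, 18, 5, 0, 0, 0), (4, 2, 7, 0, 0, 0)],
  [], [(4, [0, 5], [32, 17, 1]), (4, [1, 5], [32, 17, 2])]⟩,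
  ⟨75, 44, 6, [(1, 48, 3, 0, 0, 0), (1, 32, 5, 0, 0, 0), (1, 16, 7, 0, 0, 0)], [(0, 552), (1, 276)],
  [(0, [0, 4, 5], [32, 16, 1]), (1, [4, 5], [32, 16, 3])]⟩,
  ⟨76, 18, 5, [(0, 52, 3, 0, 0, 0), (0, 28, 6, 0, 0, 0), (0, 20, 7, 0, 0, 0), (0, 44, 0, 1, 0, 0),
  (0, 36, 1, 1, 0, 0)], [(0, 19039880570595)], [(0, [3, 4], [16, 8])]⟩,
  ⟨77, 19, 5, [(0, 69, 1, 0, 0, 0), (0, 53, 3, 0, 0, 0), (0, 45, 4, 0, 0, 0), (0, 21, 7, 0, 0, 0)],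
  [(0, 2748781299594)], [(0, [3, 4], [16, 8]), (0, [1, 3, 4], [16, 8, 2])]⟩,
  ⟨77, 45, 6, [(4, 60, 0, 0, 0, 0), (4, 52, 1, 0, 0, 0), (4, 44, 2, 0, 0, 0), (4, 36, 3, 0, 0, 0),
  (4, 28, 4, 0, 0, 0), (4, 20, 5, 0, 0, 0), (4, 12, 6, 0, 0, 0), (4, 4, 7, 0, 0, 0)], [], [(4, [5],
  [32, 17])]⟩,
  ⟨77, 46, 6, [(0, 53, 3, 0, 0, 0), (0, 45, 4, 0, 0, 0), (0, 37, 5, 0, 0, 0), (0, 29, 6, 0, 0, 0),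
  (0, 21, 7, 0, 0, 0)], [(0, 8866)], [(0, [0, 4, 5], [32, 16, 1])]⟩,
  ⟨77, 49, 6, [(2, 56, 2, 0, 0, 0), (2, 40, 4, 0, 0, 0), (2, 24, 6, 0, 0, 0)], [(0, 512), (2, 256)],
  [(2, [4, 5], [32, 16, 5])]⟩,
  ⟨77, 50, 6, [(2, 56, 2, 0, 0, 0), (2, 40, 4, 0, 0, 0), (2, 24, 6, 0, 0, 0)], [(0, 512), (2, 256)],
  [(2, [4, 5], [32, 16, 5])]⟩]

theorem ok : es.all (exOk 0) = true := by decide +kernel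

end Pool.Agent.H636.HD.DE
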